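import Pool.Agent.Helper48.HE.Dec

open Set MeasureTheory Filter Topology

namespace Pool.Agent.Helper48.HalfEuler

/-- The coordinates of a point. -/
def co : Fin 3 → P3 → ℝ
  | 0, p => p.1.1
  | 1, p => p.1.2
  | 2, p => p.2

/-- The coordinate line through `p`. -/
def ln : Fin 3 → P3 → ℝ → P3
  | 0, p, s => ((s, p.1.2), p.2)
  | 1, p, s => ((p.1.1, s), p.2)
  | 2, p, s => (p.1, s)

@[simp] lemma ln_co (j : Fin 3) (p : P3) : ln j p (co j p) = p := by
  fin_cases j <;> rfl

/-- `F'` is the `j`-th partial derivative of `F` (for `j = 2` only in the open half-space). -/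
def HasD (j : Fin 3) (F F' : P3 → ℝ) : Prop :=
  ∀ p, p ∈ H3 → (j = 2 → p ∈ M3) → HasDerivAt (fun s => F (ln j p s)) (F' p) (co j p)

namespace HasD
variable {j : Fin 3} {F F' G G' : P3 → ℝ}

lemma add (hF : HasD j F F') (hG : HasD j G G') :
    HasD j (fun p => F p + G p) (fun p => F' p + G' p) :=
  fun p hp hj => (hF p hp hj).add (hG p hp hj)

lemma neg (hF : HasD j F F') : HasD j (fun p => -F p) (fun p => -F' p) :=
  fun p hp hj => (hF p hp hj).neg

lemma sub (hF : HasD j F F') (hG : HasD j G G') :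
    HasD j (fun p => F p - G p) (fun p => F' p - G' p) :=
  fun p hp hj => (hF p hp hj).sub (hG p hp hj)

lemma mul (hF : HasD j F F') (hG : HasD j G G') :
    HasD j (fun p => F p * G p) (fun p => F' p * G p + F p * G' p) := by
  intro p hp hj
  have := (hF p hp hj).mul (hG p hp hj)
  simp only [ln_co] at this
  exact this

lemma const (c : ℝ) : HasD j (fun _ => c) (fun _ => 0) :=
  fun _ _ _ => hasDerivAt_const _ _

lemma const_mul (c : ℝ) (hF : HasD j F F') : HasD j (fun p => c * F p) (fun p => c * F' p) :=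
  fun p hp hj => (hF p hp hj).const_mul c

lemma pow (hF : HasD j F F') (n : ℕ) :
    HasD j (fun p => F p ^ n) (fun p => n * F p ^ (n - 1) * F' p) := by
  intro p hp hj
  have := (hF p hp hj).pow n
  simp only [ln_co] at this
  exact this

lemma congr' (hF : HasD j F F') (h : ∀ p ∈ H3, F' p = G' p) : HasD j F G' := by
  intro p hp hj
  rw [← h p hp]
  exact hF p hp hj

lemma cast {F₁ F₁' : P3 → ℝ} (hF : HasD j F F') (h : F₁ = F) (h' : ∀ p ∈ H3, F₁' p = F' p) :
    HasD j F₁ F₁' := by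
  subst h
  exact hF.congr' fun p hp => (h' p hp).symm

end HasD

lemma hasD_co (i j : Fin 3) : HasD j (co i) (fun _ => if i = j then 1 else 0) := by
  intro p _ _
  fin_cases i <;> fin_cases j <;>
    simp only [co, ln, Fin.zero_eta, Fin.mk_one, Fin.reduceFinMk, Fin.isValue, if_true,
      zero_ne_one, if_false, Fin.reduceEq, one_ne_zero, reduceIte]
  all_goals first | exact hasDerivAt_id' _ | exact hasDerivAt_const _ _

lemma int3_D {γ δ : ℝ} {F F' : P3 → ℝ} (j : Fin 3) (hF : Dec γ F) (hγ : 0 < γ)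
    (hF' : Dec δ F') (hδ : 3 < δ) (h : HasD j F F') :
    ∫ p in M3, F' p = if j = 2 then - ∫ q, F (q, 0) else 0 := by
  fin_cases j
  · simp only [Fin.zero_eta, Fin.isValue, Fin.reduceEq, if_false]
    exact int3_dx hF hγ hF' hδ fun a b c hc => by
      have := h ((a, b), c) hc (by simp)
      simpa [ln, co] using this
  · simp only [Fin.mk_one, Fin.isValue, Fin.reduceEq, if_false]
    exact int3_dy hF hγ hF' hδ fun a b c hc => by
      have := h ((a, b), c) hc (by simp)
      simpa [ln, co] using this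
  · simp only [Fin.reduceFinMk, if_true]
    exact int3_dz hF hγ hF' hδ fun q c hc => by
      have := h (q, c) (le_of_lt hc) (fun _ => hc)
      simpa [ln, co] using this

/-- The divergence theorem on the half-space. -/
lemma div_thm {γ δ : ℝ} {G G' : Fin 3 → P3 → ℝ} (hG : ∀ j, Dec γ (G j)) (hγ : 0 < γ)
    (hG' : ∀ j, Dec δ (G' j)) (hδ : 3 < δ) (h : ∀ j, HasD j (G j) (G' j)) :
    ∫ p in M3, ∑ j, G' j p = - ∫ q, G 2 (q, 0) := by
  rw [integral_finsetSum _ (fun j _ => (hG' j).integrableOn hδ)]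
  rw [Fin.sum_univ_three, int3_D 0 (hG 0) hγ (hG' 0) hδ (h 0),
    int3_D 1 (hG 1) hγ (hG' 1) hδ (h 1), int3_D 2 (hG 2) hγ (hG' 2) hδ (h 2)]
  simp

/-- Decaying sums. -/
lemma Dec.sum {γ : ℝ} {F : Fin 3 → P3 → ℝ} (h : ∀ j, Dec γ (F j)) :
    Dec γ (fun p => ∑ j, F j p) := by
  have := ((h 0).add (h 1)).add (h 2)
  refine this.congr fun p _ => ?_
  rw [Fin.sum_univ_three]

lemma HasD.sum {j : Fin 3} {F F' : Fin 3 → P3 → ℝ} (h : ∀ i, HasD j (F i) (F' i)) :
    HasD j (fun p => ∑ i, F i p) (fun p => ∑ i, F' i p) := by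
  have := ((h 0).add (h 1)).add (h 2)
  refine this.cast ?_ ?_
  · funext p; rw [Fin.sum_univ_three]
  · intro p _; rw [Fin.sum_univ_three]

end Pool.Agent.Helper48.HalfEuler
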