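import Pool.Agent.Helper48.HE.Defs

open Set MeasureTheory Filter Topology

namespace Pool.Agent.Helper48.HalfEuler

/-- coordinates: a point `((a,b),c)`, `c` is the height. -/
abbrev P3 := (ℝ × ℝ) × ℝ

/-- closed half-space in coordinates -/
def H3 : Set P3 := {p | 0 ≤ p.2}

/-- open half-space in coordinates -/
def M3 : Set P3 := {p | 0 < p.2}

lemma measurableSet_M3 : MeasurableSet M3 := measurableSet_lt measurable_const measurable_snd

lemma M3_eq : M3 = (univ : Set (ℝ × ℝ)) ×ˢ Ioi (0:ℝ) := by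
  ext p; simp [M3]

lemma M3_subset : M3 ⊆ H3 := fun p (hp : 0 < p.2) => (le_of_lt hp : 0 ≤ p.2)

instance instHaarP3 : (volume : Measure P3).IsAddHaarMeasure := by
  rw [Measure.volume_eq_prod]; infer_instance

lemma vol_M3 : (volume : Measure P3).restrict M3 =
    (volume : Measure (ℝ × ℝ)).prod ((volume : Measure ℝ).restrict (Ioi 0)) := by
  rw [M3_eq, Measure.volume_eq_prod, ← Measure.prod_restrict, Measure.restrict_univ]

/-- Continuous on the closed half-space with decay of order `γ`. -/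
def Dec (γ : ℝ) (F : P3 → ℝ) : Prop :=
  ContinuousOn F H3 ∧ ∃ C, 0 ≤ C ∧ ∀ p ∈ H3, |F p| ≤ C * (1 + ‖p‖) ^ (-γ)

/-- Continuous on the plane with decay of order `γ`. -/
def Dec2 (γ : ℝ) (F : ℝ × ℝ → ℝ) : Prop :=
  Continuous F ∧ ∃ C, 0 ≤ C ∧ ∀ q, |F q| ≤ C * (1 + ‖q‖) ^ (-γ)

section Gen
variable {X : Type*} [NormedAddCommGroup X]

lemma one_le_w (p : X) : 1 ≤ 1 + ‖p‖ := by have := norm_nonneg p; linarith
lemma w_pos (p : X) : 0 < 1 + ‖p‖ := by have := norm_nonneg p; linarith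

lemma w_mono {γ δ : ℝ} (h : δ ≤ γ) (p : X) : (1 + ‖p‖) ^ (-γ) ≤ (1 + ‖p‖) ^ (-δ) :=
  Real.rpow_le_rpow_of_exponent_le (one_le_w p) (by linarith)

lemma w_nonneg (γ : ℝ) (p : X) : 0 ≤ (1 + ‖p‖) ^ γ := Real.rpow_nonneg (w_pos p).le _

lemma w_le_one {γ : ℝ} (h : 0 ≤ γ) (p : X) : (1 + ‖p‖) ^ (-γ) ≤ 1 := by
  have := w_mono (X := X) h p
  rwa [neg_zero, Real.rpow_zero] at this

end Gen

namespace Dec
variable {γ δ : ℝ} {F G : P3 → ℝ}

lemma mk' {C : ℝ} (h : ContinuousOn F H3) (hC : ∀ p ∈ H3, |F p| ≤ C * (1 + ‖p‖) ^ (-γ)) :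
    Dec γ F := by
  refine ⟨h, C, ?_, hC⟩
  have h0 := hC ((0,0),0) (by simp [H3])
  have h1 := w_nonneg (-γ) (((0,0),0) : P3)
  have h2 : (((0,0),0) : P3) = 0 := rfl
  rw [h2] at h0
  simp only [norm_zero, add_zero, Real.one_rpow, mul_one] at h0
  exact le_trans (abs_nonneg _) h0

lemma mono (hF : Dec γ F) (h : δ ≤ γ) : Dec δ F := by
  obtain ⟨hc, C, hC, hb⟩ := hF
  exact ⟨hc, C, hC, fun p hp => (hb p hp).trans (mul_le_mul_of_nonneg_left (w_mono h p) hC)⟩

lemma add (hF : Dec γ F) (hG : Dec γ G) : Dec γ (fun p => F p + G p) := by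
  obtain ⟨hc, C, hC, hb⟩ := hF
  obtain ⟨hc', C', hC', hb'⟩ := hG
  refine ⟨hc.add hc', C + C', by positivity, fun p hp => ?_⟩
  calc |F p + G p| ≤ |F p| + |G p| := abs_add_le _ _
    _ ≤ _ := by rw [add_mul]; exact add_le_add (hb p hp) (hb' p hp)

lemma neg (hF : Dec γ F) : Dec γ (fun p => - F p) := by
  obtain ⟨hc, C, hC, hb⟩ := hF
  exact ⟨hc.neg, C, hC, fun p hp => by rw [abs_neg]; exact hb p hp⟩

lemma sub (hF : Dec γ F) (hG : Dec γ G) : Dec γ (fun p => F p - G p) := by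
  simpa [sub_eq_add_neg] using hF.add hG.neg

lemma mul (hF : Dec γ F) (hG : Dec δ G) : Dec (γ + δ) (fun p => F p * G p) := by
  obtain ⟨hc, C, hC, hb⟩ := hF
  obtain ⟨hc', C', hC', hb'⟩ := hG
  refine ⟨hc.mul hc', C * C', by positivity, fun p hp => ?_⟩
  rw [abs_mul]
  calc |F p| * |G p| ≤ (C * (1 + ‖p‖) ^ (-γ)) * (C' * (1 + ‖p‖) ^ (-δ)) :=
        mul_le_mul (hb p hp) (hb' p hp) (abs_nonneg _) (mul_nonneg hC (w_nonneg _ _))
    _ = C * C' * ((1 + ‖p‖) ^ (-γ) * (1 + ‖p‖) ^ (-δ)) := by ring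
    _ = _ := by rw [← Real.rpow_add (w_pos p)]; congr 2; ring

lemma const (c : ℝ) : Dec 0 (fun _ => c) :=
  ⟨continuousOn_const, |c|, abs_nonneg _, fun p _ => by simp⟩

lemma const_mul (c : ℝ) (hF : Dec γ F) : Dec γ (fun p => c * F p) := by
  have := (const c).mul hF
  rwa [zero_add] at this

lemma height : Dec (-1) (fun p => p.2) := by
  refine ⟨continuousOn_snd, 1, zero_le_one, fun p _ => ?_⟩
  rw [neg_neg, Real.rpow_one, one_mul, ← Real.norm_eq_abs]
  have := norm_snd_le p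
  linarith

lemma co1 : Dec (-1) (fun p => p.1.1) := by
  refine ⟨(continuous_fst.comp continuous_fst).continuousOn, 1, zero_le_one, fun p _ => ?_⟩
  rw [neg_neg, Real.rpow_one, one_mul, ← Real.norm_eq_abs]
  have := norm_fst_le p
  have := norm_fst_le p.1
  linarith

lemma co2 : Dec (-1) (fun p => p.1.2) := by
  refine ⟨(continuous_snd.comp continuous_fst).continuousOn, 1, zero_le_one, fun p _ => ?_⟩
  rw [neg_neg, Real.rpow_one, one_mul, ← Real.norm_eq_abs]
  have := norm_fst_le p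
  have := norm_snd_le p.1
  linarith

lemma congr (hF : Dec γ F) (h : ∀ p ∈ H3, G p = F p) : Dec γ G := by
  obtain ⟨hc, C, hC, hb⟩ := hF
  exact ⟨hc.congr h, C, hC, fun p hp => by rw [h p hp]; exact hb p hp⟩

lemma integrableOn (hF : Dec γ F) (h : 3 < γ) : IntegrableOn F M3 := by
  obtain ⟨hc, C, hC, hb⟩ := hF
  have h1 : Integrable (fun p : P3 => C * (1 + ‖p‖) ^ (-γ)) := by
    refine Integrable.const_mul ?_ C
    refine integrable_one_add_norm ?_
    simp only [Module.finrank_prod, Module.finrank_self]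
    norm_num
    linarith
  refine Integrable.mono' h1.integrableOn
    ((hc.mono M3_subset).aestronglyMeasurable measurableSet_M3) ?_
  refine (ae_restrict_iff' measurableSet_M3).2 (Eventually.of_forall fun p hp => ?_)
  exact hb p (M3_subset hp)

/-- the trace on the plane of height `c` -/
lemma slice (hF : Dec γ F) (hγ : 0 ≤ γ) {c : ℝ} (hc0 : 0 ≤ c) :
    Dec2 γ (fun q => F (q, c)) := by
  obtain ⟨hc, C, hC, hb⟩ := hF
  refine ⟨?_, C, hC, fun q => (hb (q, c) hc0).trans ?_⟩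
  · exact hc.comp_continuous (by fun_prop) (fun q => hc0)
  · refine mul_le_mul_of_nonneg_left ?_ hC
    refine Real.rpow_le_rpow_of_nonpos (w_pos q) ?_ (by linarith)
    have := norm_fst_le ((q, c) : P3)
    simp

end Dec

namespace Dec2
variable {γ δ : ℝ} {F G : ℝ × ℝ → ℝ}

lemma mono (hF : Dec2 γ F) (h : δ ≤ γ) : Dec2 δ F := by
  obtain ⟨hc, C, hC, hb⟩ := hF
  exact ⟨hc, C, hC, fun p => (hb p).trans (mul_le_mul_of_nonneg_left (w_mono h p) hC)⟩

lemma add (hF : Dec2 γ F) (hG : Dec2 γ G) : Dec2 γ (fun p => F p + G p) := by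
  obtain ⟨hc, C, hC, hb⟩ := hF
  obtain ⟨hc', C', hC', hb'⟩ := hG
  refine ⟨hc.add hc', C + C', by positivity, fun p => ?_⟩
  calc |F p + G p| ≤ |F p| + |G p| := abs_add_le _ _
    _ ≤ _ := by rw [add_mul]; exact add_le_add (hb p) (hb' p)

lemma neg (hF : Dec2 γ F) : Dec2 γ (fun p => - F p) := by
  obtain ⟨hc, C, hC, hb⟩ := hF
  exact ⟨hc.neg, C, hC, fun p => by rw [abs_neg]; exact hb p⟩

lemma sub (hF : Dec2 γ F) (hG : Dec2 γ G) : Dec2 γ (fun p => F p - G p) := by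
  simpa [sub_eq_add_neg] using hF.add hG.neg

lemma mul (hF : Dec2 γ F) (hG : Dec2 δ G) : Dec2 (γ + δ) (fun p => F p * G p) := by
  obtain ⟨hc, C, hC, hb⟩ := hF
  obtain ⟨hc', C', hC', hb'⟩ := hG
  refine ⟨hc.mul hc', C * C', by positivity, fun p => ?_⟩
  rw [abs_mul]
  calc |F p| * |G p| ≤ (C * (1 + ‖p‖) ^ (-γ)) * (C' * (1 + ‖p‖) ^ (-δ)) :=
        mul_le_mul (hb p) (hb' p) (abs_nonneg _) (mul_nonneg hC (w_nonneg _ _))
    _ = C * C' * ((1 + ‖p‖) ^ (-γ) * (1 + ‖p‖) ^ (-δ)) := by ring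
    _ = _ := by rw [← Real.rpow_add (w_pos p)]; congr 2; ring

lemma const (c : ℝ) : Dec2 0 (fun _ => c) :=
  ⟨continuous_const, |c|, abs_nonneg _, fun p => by simp⟩

lemma const_mul (c : ℝ) (hF : Dec2 γ F) : Dec2 γ (fun p => c * F p) := by
  have := (const c).mul hF
  rwa [zero_add] at this

lemma co1 : Dec2 (-1) (fun p => p.1) := by
  refine ⟨continuous_fst, 1, zero_le_one, fun p => ?_⟩
  rw [neg_neg, Real.rpow_one, one_mul, ← Real.norm_eq_abs]
  have := norm_fst_le p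
  linarith

lemma co2 : Dec2 (-1) (fun p => p.2) := by
  refine ⟨continuous_snd, 1, zero_le_one, fun p => ?_⟩
  rw [neg_neg, Real.rpow_one, one_mul, ← Real.norm_eq_abs]
  have := norm_snd_le p
  linarith

lemma congr (hF : Dec2 γ F) (h : ∀ p, G p = F p) : Dec2 γ G := by
  have : G = F := funext h
  rwa [this]

lemma integrable (hF : Dec2 γ F) (h : 2 < γ) : Integrable F := by
  obtain ⟨hc, C, hC, hb⟩ := hF
  have h1 : Integrable (fun p : ℝ × ℝ => C * (1 + ‖p‖) ^ (-γ)) := by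
    refine Integrable.const_mul ?_ C
    refine integrable_one_add_norm ?_
    simp [Module.finrank_prod]
    linarith
  exact Integrable.mono' h1 hc.aestronglyMeasurable (Eventually.of_forall hb)

end Dec2

/-! ### The divergence theorem -/

lemma tendsto_w {γ C : ℝ} (hγ : 0 < γ) (f : ℝ → ℝ) (hf : ∀ s : ℝ, |f s| ≤ C * (1 + |s|) ^ (-γ)) :
    Tendsto f atTop (𝓝 0) ∧ Tendsto f atBot (𝓝 0) := by
  have h1 : Tendsto (fun s : ℝ => C * (1 + s) ^ (-γ)) atTop (𝓝 0) := by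
    have h2 : Tendsto (fun s : ℝ => (1 + s)) atTop atTop := tendsto_atTop_add_const_left _ _ tendsto_id
    have h3 := ((tendsto_rpow_neg_atTop hγ).comp h2).const_mul C
    simpa using h3
  constructor
  · refine squeeze_zero_norm' (Eventually.of_forall fun s => ?_)
      (h1.comp tendsto_abs_atTop_atTop)
    simpa using hf s
  · refine squeeze_zero_norm' (Eventually.of_forall fun s => ?_)
      (h1.comp tendsto_abs_atBot_atTop)
    simpa using hf s

lemma integrable_w {γ C : ℝ} (hγ : 1 < γ) (f : ℝ → ℝ) (hc : Continuous f)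
    (hf : ∀ s : ℝ, |f s| ≤ C * (1 + |s|) ^ (-γ)) : Integrable f := by
  have h1 : Integrable (fun p : ℝ => C * (1 + ‖p‖) ^ (-γ)) := by
    refine Integrable.const_mul ?_ C
    refine integrable_one_add_norm ?_
    simp
    linarith
  exact Integrable.mono' h1 hc.aestronglyMeasurable (Eventually.of_forall hf)

lemma int2_dx {γ δ : ℝ} {F F' : ℝ × ℝ → ℝ} (hF : Dec2 γ F) (hγ : 0 < γ) (hF' : Dec2 δ F')
    (hδ : 2 < δ) (h : ∀ a b, HasDerivAt (fun s => F (s, b)) (F' (a, b)) a) :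
    ∫ q, F' q = 0 := by
  rw [Measure.volume_eq_prod, integral_prod_symm _ (by rw [← Measure.volume_eq_prod]; exact hF'.integrable hδ)]
  obtain ⟨hc, C, hC, hb⟩ := hF
  obtain ⟨hc', C', hC', hb'⟩ := hF'
  have key : ∀ b, ∫ a, F' (a, b) = 0 := by
    intro b
    have e1 : ∀ s : ℝ, |F (s, b)| ≤ C * (1 + |s|) ^ (-γ) := fun s => (hb _).trans
      (mul_le_mul_of_nonneg_left (Real.rpow_le_rpow_of_nonpos (by positivity)
        (by have := norm_fst_le (s, b); simp) (by linarith)) hC)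
    have e2 : ∀ s : ℝ, |F' (s, b)| ≤ C' * (1 + |s|) ^ (-δ) := fun s => (hb' _).trans
      (mul_le_mul_of_nonneg_left (Real.rpow_le_rpow_of_nonpos (by positivity)
        (by have := norm_fst_le (s, b); simp) (by linarith)) hC')
    have t := tendsto_w hγ _ e1
    have := integral_of_hasDerivAt_of_tendsto (fun a => h a b)
      (integrable_w (by linarith) _ (hc'.comp (by fun_prop)) e2) t.2 t.1
    rw [this, sub_zero]
  simp [key]

lemma int2_dy {γ δ : ℝ} {F F' : ℝ × ℝ → ℝ} (hF : Dec2 γ F) (hγ : 0 < γ) (hF' : Dec2 δ F')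
    (hδ : 2 < δ) (h : ∀ a b, HasDerivAt (fun s => F (a, s)) (F' (a, b)) b) :
    ∫ q, F' q = 0 := by
  rw [Measure.volume_eq_prod, integral_prod _ (by rw [← Measure.volume_eq_prod]; exact hF'.integrable hδ)]
  obtain ⟨hc, C, hC, hb⟩ := hF
  obtain ⟨hc', C', hC', hb'⟩ := hF'
  have key : ∀ a, ∫ b, F' (a, b) = 0 := by
    intro a
    have e1 : ∀ s : ℝ, |F (a, s)| ≤ C * (1 + |s|) ^ (-γ) := fun s => (hb _).trans
      (mul_le_mul_of_nonneg_left (Real.rpow_le_rpow_of_nonpos (by positivity)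
        (by have := norm_snd_le (a, s); simp) (by linarith)) hC)
    have e2 : ∀ s : ℝ, |F' (a, s)| ≤ C' * (1 + |s|) ^ (-δ) := fun s => (hb' _).trans
      (mul_le_mul_of_nonneg_left (Real.rpow_le_rpow_of_nonpos (by positivity)
        (by have := norm_snd_le (a, s); simp) (by linarith)) hC')
    have t := tendsto_w hγ _ e1
    have := integral_of_hasDerivAt_of_tendsto (fun b => h a b)
      (integrable_w (by linarith) _ (hc'.comp (by fun_prop)) e2) t.2 t.1
    rw [this, sub_zero]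
  simp [key]

lemma int3_eq {δ : ℝ} {F' : P3 → ℝ} (hF' : Dec δ F') (hδ : 3 < δ) :
    ∫ p in M3, F' p = ∫ c in Ioi (0:ℝ), ∫ q, F' (q, c) := by
  have hi := hF'.integrableOn hδ
  rw [IntegrableOn, vol_M3] at hi
  rw [vol_M3, integral_prod_symm _ hi]

lemma int3_dx {γ δ : ℝ} {F F' : P3 → ℝ} (hF : Dec γ F) (hγ : 0 < γ) (hF' : Dec δ F')
    (hδ : 3 < δ) (h : ∀ a b c, 0 ≤ c → HasDerivAt (fun s => F ((s, b), c)) (F' ((a, b), c)) a) :
    ∫ p in M3, F' p = 0 := by
  rw [int3_eq hF' hδ]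
  refine setIntegral_eq_zero_of_forall_eq_zero fun c hc => ?_
  have hc0 : 0 ≤ c := le_of_lt hc
  exact int2_dx (hF.slice hγ.le hc0) hγ (hF'.slice (by linarith) hc0) (by linarith)
    (fun a b => h a b c hc0)

lemma int3_dy {γ δ : ℝ} {F F' : P3 → ℝ} (hF : Dec γ F) (hγ : 0 < γ) (hF' : Dec δ F')
    (hδ : 3 < δ) (h : ∀ a b c, 0 ≤ c → HasDerivAt (fun s => F ((a, s), c)) (F' ((a, b), c)) b) :
    ∫ p in M3, F' p = 0 := by
  rw [int3_eq hF' hδ]
  refine setIntegral_eq_zero_of_forall_eq_zero fun c hc => ?_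
  have hc0 : 0 ≤ c := le_of_lt hc
  exact int2_dy (hF.slice hγ.le hc0) hγ (hF'.slice (by linarith) hc0) (by linarith)
    (fun a b => h a b c hc0)

lemma int3_dz {γ δ : ℝ} {F F' : P3 → ℝ} (hF : Dec γ F) (hγ : 0 < γ) (hF' : Dec δ F')
    (hδ : 3 < δ) (h : ∀ q c, 0 < c → HasDerivAt (fun s => F (q, s)) (F' (q, c)) c) :
    ∫ p in M3, F' p = - ∫ q, F (q, 0) := by
  have hi := hF'.integrableOn hδ
  rw [IntegrableOn, vol_M3] at hi
  rw [vol_M3, integral_prod _ hi, ← integral_neg]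
  obtain ⟨hc, C, hC, hb⟩ := hF
  obtain ⟨hc', C', hC', hb'⟩ := hF'
  refine integral_congr_ae (Eventually.of_forall fun q => ?_)
  change ∫ c in Ioi (0:ℝ), F' (q, c) = - F (q, 0)
  have e1 : ∀ s : ℝ, 0 ≤ s → |F (q, s)| ≤ C * (1 + |s|) ^ (-γ) := fun s hs => (hb _ hs).trans
      (mul_le_mul_of_nonneg_left (Real.rpow_le_rpow_of_nonpos (by positivity)
        (by have := norm_snd_le ((q, s) : P3); simp) (by linarith)) hC)
  have e2 : ∀ s : ℝ, 0 ≤ s → |F' (q, s)| ≤ C' * (1 + |s|) ^ (-δ) := fun s hs => (hb' _ hs).trans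
      (mul_le_mul_of_nonneg_left (Real.rpow_le_rpow_of_nonpos (by positivity)
        (by have := norm_snd_le ((q, s) : P3); simp) (by linarith)) hC')
  have hint : IntegrableOn (fun c => F' (q, c)) (Ioi (0:ℝ)) := by
    have h1 : Integrable (fun p : ℝ => C' * (1 + ‖p‖) ^ (-δ)) := by
      refine Integrable.const_mul ?_ C'
      refine integrable_one_add_norm ?_
      simp
      linarith
    refine Integrable.mono' h1.integrableOn ?_ ?_
    · refine ContinuousOn.aestronglyMeasurable ?_ measurableSet_Ioi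
      exact hc'.comp (by fun_prop) (fun s (hs : 0 < s) => (le_of_lt hs : 0 ≤ s))
    · refine (ae_restrict_iff' measurableSet_Ioi).2 (Eventually.of_forall fun s hs => ?_)
      exact e2 s (le_of_lt hs)
  have hcont : ContinuousWithinAt (fun s => F (q, s)) (Ici 0) 0 := by
    have : ContinuousOn (fun s => F (q, s)) (Ici (0:ℝ)) :=
      hc.comp (by fun_prop) (fun s hs => hs)
    exact this 0 self_mem_Ici
  have ht : Tendsto (fun s => F (q, s)) atTop (𝓝 0) := by
    have h0 := (tendsto_w hγ (fun s => F (q, |s|)) (fun s => by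
      have := e1 |s| (abs_nonneg s); rwa [abs_abs] at this)).1
    refine h0.congr' ?_
    filter_upwards [eventually_ge_atTop 0] with s hs
    rw [abs_of_nonneg hs]
  have := integral_Ioi_of_hasDerivAt_of_tendsto hcont (fun c hc0 => h q c hc0) hint ht
  rw [this, zero_sub]

end Pool.Agent.Helper48.HalfEuler
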