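import Mathlib

open Set

namespace Pool.Agent.Helper48.HalfEuler

/-- Points and vectors of three-space; `‖x‖` is the maximum norm. -/
abbrev E := Fin 3 → ℝ

/-- The closed half-space: the closure of the fluid domain `M = {x | 0 < x 2}`. -/
def Mbar : Set E := {x | 0 ≤ x 2}

/-- The `j`-th partial derivative of a function on the closed half-space (one-sided on the wall
`x 2 = 0`). -/
noncomputable def pd (j : Fin 3) (f : E → ℝ) (x : E) : ℝ :=
  fderivWithin ℝ f Mbar x (Pi.single j 1)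

/-- `v` and `w` are at distance at most `r` in the weighted `C^{1,α}` norm with weight
`(1 + |x|)^β` on the closed half-space. -/
def Close (α β r : ℝ) (v w : E → E) : Prop :=
  ∀ i, ∀ x ∈ Mbar, |v x i - w x i| ≤ r * (1 + ‖x‖) ^ (-β) ∧
    ∀ j, |pd j (fun z => v z i) x - pd j (fun z => w z i) x| ≤ r * (1 + ‖x‖) ^ (-β) ∧
      ∀ y ∈ Mbar, ‖x - y‖ ≤ 1 →
        |(pd j (fun z => v z i) x - pd j (fun z => w z i) x) -
          (pd j (fun z => v z i) y - pd j (fun z => w z i) y)| ≤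
          r * (1 + ‖x‖) ^ (-β) * ‖x - y‖ ^ α

/-- The phase space: `v` is a divergence-free vector field of weighted class `C^{1,α}` up to the
boundary on the closed half-space, tangent to the wall, whose vorticity is tangent to the wall. -/
def IsVelocity (α β : ℝ) (v : E → E) : Prop :=
  (∀ i, ContDiffOn ℝ 1 (fun x => v x i) Mbar) ∧
  (∃ C : ℝ, Close α β C v 0) ∧
  (∀ x ∈ Mbar, ∑ i, pd i (fun z => v z i) x = 0) ∧
  (∀ x ∈ Mbar, x 2 = 0 → v x 2 = 0) ∧
  (∀ x ∈ Mbar, x 2 = 0 → pd 0 (fun z => v z 1) x = pd 1 (fun z => v z 0) x)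

/-- `u` is a classical solution on `[0,t]`, bounded in the phase space, of the incompressible Euler
equations on the half-space. -/
def IsEulerSolution (α β t : ℝ) (u : ℝ → E → E) : Prop :=
  (∀ s ∈ Icc 0 t, IsVelocity α β (u s)) ∧
  (∃ C : ℝ, ∀ s ∈ Icc 0 t, Close α β C (u s) 0) ∧
  (∀ i, ContinuousOn (fun z : ℝ × E => u z.1 z.2 i) (Icc 0 t ×ˢ Mbar)) ∧
  (∀ i j, ContinuousOn (fun z : ℝ × E => pd j (fun x => u z.1 x i) z.2) (Icc 0 t ×ˢ Mbar)) ∧
  ∃ p : ℝ → E → ℝ,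
    (∀ s ∈ Ioo 0 t, DifferentiableOn ℝ (p s) Mbar) ∧
    (∀ i, ContinuousOn (fun z : ℝ × E => pd i (p z.1) z.2) (Ioo 0 t ×ˢ Mbar)) ∧
    (∃ C : ℝ, ∀ s ∈ Ioo 0 t, ∀ x ∈ Mbar, ∀ i, |pd i (p s) x| ≤ C * (1 + ‖x‖) ^ (-β)) ∧
    ∀ s ∈ Ioo 0 t, ∀ x ∈ Mbar, ∀ i, HasDerivAt (fun τ => u τ x i)
      (-(∑ j, u s x j * pd j (fun y => u s y i) x) - pd i (p s) x) s

/-- No solution starting in the closed ball of radius `r` about `v₀` is in that ball at
a time `t ≥ T`. -/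
def NoReturn (α β T r : ℝ) (v₀ : E → E) : Prop :=
  ∀ t : ℝ, T ≤ t → ∀ u : ℝ → E → E, IsEulerSolution α β t u →
    Close α β r v₀ (u 0) → ¬ Close α β r v₀ (u t)

end Pool.Agent.Helper48.HalfEuler
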