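import Pool.Agent.Helper48.HE.Defs

open Set MeasureTheory

namespace Pool.Agent.Helper48.HalfEuler

/-- Packet LIOU: a decaying curl-free planar field which does not vanish identically has a
non-vanishing Poisson average of its divergence. -/
def StmtTest : Prop :=
  ∀ (V0 V1 : ℝ × ℝ → ℝ) (β C : ℝ), 3 < β → ContDiff ℝ 1 V0 → ContDiff ℝ 1 V1 →
    (∀ q, |V0 q| ≤ C * (1 + ‖q‖) ^ (-β)) → (∀ q, |V1 q| ≤ C * (1 + ‖q‖) ^ (-β)) →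
    (∀ q, |fderiv ℝ V0 q (1, 0) + fderiv ℝ V1 q (0, 1)| ≤ C * (1 + ‖q‖) ^ (-β)) →
    (∀ q, fderiv ℝ V1 q (1, 0) = fderiv ℝ V0 q (0, 1)) →
    (∃ q, V0 q ≠ 0 ∨ V1 q ≠ 0) →
    ∃ y0 y1 c : ℝ, 0 < c ∧
      ∫ q : ℝ × ℝ, (fderiv ℝ V0 q (1, 0) + fderiv ℝ V1 q (0, 1)) *
        (c * ((Real.sqrt ((q.1 - y0) ^ 2 + (q.2 - y1) ^ 2 + c ^ 2))⁻¹) ^ 3) ≠ 0

/-- Packet EX: an explicit element of the phase space which does not vanish on the wall. -/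
def StmtEx : Prop :=
  ∀ α β : ℝ, 0 < α → α < 1 → 3 < β →
    ∃ w : E → E, IsVelocity α β w ∧ ∃ x : E, x 2 = 0 ∧ w x 0 ≠ 0

end Pool.Agent.Helper48.HalfEuler
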