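import Pool.Agent.Helper48.HE.Time

open Set MeasureTheory Filter Topology

namespace Pool.Agent.Helper48.HalfEuler

/-- The wall moment. -/
noncomputable def Lm (U : Fin 3 → P3 → ℝ) : ℝ :=
  ∫ q : ℝ × ℝ, (q.1 * U 0 (q, 0) + q.2 * U 1 (q, 0))

/-- The wall test functional. -/
noncomputable def Ym (y0 y1 c : ℝ) (U : Fin 3 → P3 → ℝ) : ℝ :=
  ∫ q : ℝ × ℝ, (ff y0 y1 c 0 (q, 0) * U 0 (q, 0) + ff y0 y1 c 1 (q, 0) * U 1 (q, 0))

/-- The wall energy. -/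
noncomputable def Dm (U : Fin 3 → P3 → ℝ) : ℝ :=
  ∫ q : ℝ × ℝ, (U 0 (q, 0) ^ 2 + U 1 (q, 0) ^ 2)

/-- The energy. -/
noncomputable def Em (U : Fin 3 → P3 → ℝ) : ℝ :=
  ∫ p in M3, (U 0 p ^ 2 + U 1 p ^ 2 + U 2 p ^ 2)

lemma Dm_nonneg (U : Fin 3 → P3 → ℝ) : 0 ≤ Dm U :=
  integral_nonneg fun q => by positivity

section
variable {β t : ℝ} {U : ℝ → Fin 3 → P3 → ℝ} {DU : ℝ → Fin 3 → Fin 3 → P3 → ℝ}
  {T : ℝ → Fin 3 → P3 → ℝ} {y0 y1 c : ℝ}

lemma Sol.L_facts (S : Sol β t U DU T) :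
    ContinuousOn (fun s => Lm (U s)) (Icc 0 t) ∧
    ∀ s ∈ Ioo 0 t, HasDerivAt (fun s => Lm (U s)) (Dm (U s)) s := by
  have h := S.wall_lin (A := co) (fun i => by
    fin_cases i
    · exact Dec.co1
    · exact Dec.co2
    · exact Dec.height)
  refine ⟨h.1, fun s hs => ?_⟩
  have h2 := h.2 s hs
  obtain ⟨P, DP, D⟩ := S.dyn s hs
  have h3 := D.moment (D.pressure (S.T2 s hs))
  have h4 : ∫ q : ℝ × ℝ, (co 0 (q, 0) * T s 0 (q, 0) + co 1 (q, 0) * T s 1 (q, 0)) = Dm (U s) := h3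
  rw [h4] at h2
  exact h2

lemma Sol.Y_facts (S : Sol β t U DU T) (hc : 0 < c) :
    ContinuousOn (fun s => Ym y0 y1 c (U s)) (Icc 0 t) ∧
    ∀ s ∈ Ioo 0 t, HasDerivAt (fun s => Ym y0 y1 c (U s)) (Ym y0 y1 c (T s)) s :=
  S.wall_lin (A := ff y0 y1 c) (fun i => (dec_ff hc i).mono (by norm_num))

lemma Sol.Y_deriv (S : Sol β t U DU T) (hc : 0 < c) {K G : ℝ}
    (hK : ∀ p ∈ H3, ∀ i j, |ph2 y0 y1 c i j p| ≤ K)
    (hG : ∀ q : ℝ × ℝ, |ph1 y0 y1 c 2 (q, 0)| ≤ G) {ε : ℝ} (hε : |ε| ≤ 1) {s : ℝ}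
    (hs : s ∈ Ioo 0 t) :
    -(G * (1/2)) * Dm (U s) - (3 * K) * Em (U 0) ≤ ε * Ym y0 y1 c (T s) := by
  obtain ⟨P, DP, D⟩ := S.dyn s hs
  have h := D.test hc (S.Tph hc s hs) hK hG hε
  rw [S.energy (Ioo_subset_Icc_self hs)] at h
  exact h

/-- Cauchy-Schwarz on the wall. -/
lemma Snap.cauchy {U : Fin 3 → P3 → ℝ} {DU : Fin 3 → Fin 3 → P3 → ℝ} (S : Snap β U DU)
    (hc : 0 < c) {N2 : ℝ} (hN : ∫ q : ℝ × ℝ, (ff y0 y1 c 0 (q, 0) ^ 2 + ff y0 y1 c 1 (q, 0) ^ 2) ≤ N2)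
    (hN2 : 0 < N2) : Ym y0 y1 c U ^ 2 / N2 ≤ Dm U := by
  have hβ := S.hβ
  rcases eq_or_ne (Ym y0 y1 c U) 0 with h0 | h0
  · rw [h0]
    simpa using Dm_nonneg U
  set l : ℝ := N2 / Ym y0 y1 c U with hl
  have dU := fun i => S.decU i
  have df := fun i => dec_ff (y0 := y0) (y1 := y1) hc i
  have i1 : Integrable (fun q : ℝ × ℝ => (U 0 (q, 0) ^ 2 + U 1 (q, 0) ^ 2)) := by
    have := (((((dU 0).mul (dU 0)).add ((dU 1).mul (dU 1))).slice
      (by linarith) le_rfl).integrable (by linarith))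
    simpa [pow_two] using this
  have i2 : Integrable (fun q : ℝ × ℝ =>
      (ff y0 y1 c 0 (q, 0) * U 0 (q, 0) + ff y0 y1 c 1 (q, 0) * U 1 (q, 0))) :=
    (Dec.slice (((df 0).mul (dU 0)).add ((df 1).mul (dU 1))) (by linarith) le_rfl).integrable
      (by linarith)
  have i3 : Integrable (fun q : ℝ × ℝ => (ff y0 y1 c 0 (q, 0) ^ 2 + ff y0 y1 c 1 (q, 0) ^ 2)) := by
    have := (((((df 0).mul (df 0)).add ((df 1).mul (df 1))).slice
      (by linarith) le_rfl).integrable (by linarith))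
    simpa [pow_two] using this
  have key : 0 ≤ l ^ 2 * Dm U - 2 * l * Ym y0 y1 c U +
      ∫ q : ℝ × ℝ, (ff y0 y1 c 0 (q, 0) ^ 2 + ff y0 y1 c 1 (q, 0) ^ 2) := by
    have e : l ^ 2 * Dm U - 2 * l * Ym y0 y1 c U +
      ∫ q : ℝ × ℝ, (ff y0 y1 c 0 (q, 0) ^ 2 + ff y0 y1 c 1 (q, 0) ^ 2) =
      ∫ q : ℝ × ℝ, ((l * U 0 (q, 0) - ff y0 y1 c 0 (q, 0)) ^ 2 +
        (l * U 1 (q, 0) - ff y0 y1 c 1 (q, 0)) ^ 2) := by
      have f1 := integral_add ((i1.const_mul (l ^ 2)).sub (i2.const_mul (2 * l))) i3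
      have f2 := integral_sub (i1.const_mul (l ^ 2)) (i2.const_mul (2 * l))
      rw [integral_const_mul, integral_const_mul] at f2
      simp only [Pi.sub_apply] at f1
      rw [f2] at f1
      unfold Dm Ym
      rw [← f1]
      congr 1
      funext q
      ring
    rw [e]
    exact integral_nonneg fun q => by positivity
  have h1 : l * Ym y0 y1 c U = N2 := by rw [hl]; field_simp
  have h2 : N2 ≤ l ^ 2 * Dm U := by nlinarith
  have h3 : l ^ 2 = N2 ^ 2 / Ym y0 y1 c U ^ 2 := by rw [hl]; ring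
  rw [h3] at h2
  have hpos : 0 < Ym y0 y1 c U ^ 2 := by positivity
  rw [div_le_iff₀ hN2]
  rw [div_mul_eq_mul_div, le_div_iff₀ hpos] at h2
  have h4 : N2 * Ym y0 y1 c U ^ 2 ≤ N2 * (Dm U * N2) := by nlinarith
  exact le_of_mul_le_mul_left h4 hN2

/-- The moment increases by a definite amount. -/
theorem Sol.growth (S : Sol β t U DU T) (hc : 0 < c) {K G : ℝ} (hK0 : 0 ≤ K) (hG0 : 0 ≤ G)
    (hK : ∀ p ∈ H3, ∀ i j, |ph2 y0 y1 c i j p| ≤ K)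
    (hG : ∀ q : ℝ × ℝ, |ph1 y0 y1 c 2 (q, 0)| ≤ G) {ε : ℝ} (hε : |ε| ≤ 1)
    {N2 : ℝ} (hN : ∫ q : ℝ × ℝ, (ff y0 y1 c 0 (q, 0) ^ 2 + ff y0 y1 c 1 (q, 0) ^ 2) ≤ N2)
    (hN2 : 0 < N2) {Y e0 τ : ℝ} (hY : 0 < Y) (hy : Y ≤ ε * Ym y0 y1 c (U 0))
    (he : Em (U 0) ≤ e0) (hτ : 0 < τ) (hτt : τ ≤ t) (h1 : 3 * K * e0 * τ ≤ Y / 4)
    (h2 : G * (1/2) * (Lm (U t) - Lm (U 0)) ≤ Y / 4) :
    τ * ((Y / 2) ^ 2 / N2) ≤ Lm (U t) - Lm (U 0) := by
  obtain ⟨cL, dL⟩ := S.L_facts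
  obtain ⟨cY, dY⟩ := S.Y_facts (y0 := y0) (y1 := y1) hc
  have mL : MonotoneOn (fun s => Lm (U s)) (Icc 0 t) := by
    refine monotoneOn_of_deriv_nonneg (convex_Icc 0 t) cL ?_ ?_
    · rw [interior_Icc]
      exact fun s hs => (dL s hs).differentiableAt.differentiableWithinAt
    · rw [interior_Icc]
      intro s hs
      rw [(dL s hs).deriv]
      exact Dm_nonneg _
  have mZ : MonotoneOn (fun s => ε * Ym y0 y1 c (U s) + G * (1/2) * Lm (U s) +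
      3 * K * Em (U 0) * s) (Icc 0 t) := by
    have hd : ∀ s ∈ Ioo 0 t, HasDerivAt (fun s => ε * Ym y0 y1 c (U s) + G * (1/2) * Lm (U s) +
      3 * K * Em (U 0) * s) (ε * Ym y0 y1 c (T s) + G * (1/2) * Dm (U s) +
      3 * K * Em (U 0) * 1) s := fun s hs =>
        (((dY s hs).const_mul ε).add ((dL s hs).const_mul _)).add
          ((hasDerivAt_id' s).const_mul _)
    refine monotoneOn_of_deriv_nonneg (convex_Icc 0 t) ?_ ?_ ?_
    · exact ((continuousOn_const.mul cY).add (continuousOn_const.mul cL)).add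
        (continuousOn_const.mul continuousOn_id)
    · rw [interior_Icc]
      exact fun s hs => (hd s hs).differentiableAt.differentiableWithinAt
    · rw [interior_Icc]
      intro s hs
      rw [(hd s hs).deriv]
      have := S.Y_deriv hc hK hG hε hs
      linarith
  have m0 : (0:ℝ) ∈ Icc 0 t := ⟨le_rfl, S.ht.le⟩
  have mt : t ∈ Icc 0 t := ⟨S.ht.le, le_rfl⟩
  have hYs : ∀ s ∈ Icc 0 τ, Y / 2 ≤ ε * Ym y0 y1 c (U s) := by
    intro s hs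
    have hs' : s ∈ Icc 0 t := ⟨hs.1, hs.2.trans hτt⟩
    have a1 := mZ m0 hs' hs.1
    have a2 := mL hs' mt hs'.2
    simp only at a1 a2
    have a3 : 3 * K * Em (U 0) * s ≤ 3 * K * e0 * τ := by
      have b1 : 3 * K * Em (U 0) * s ≤ 3 * K * e0 * s := by
        have := hs.1
        gcongr
      have b2 : 0 ≤ e0 := le_trans (by unfold Em; exact integral_nonneg fun p => by positivity) he
      have b3 : 3 * K * e0 * s ≤ 3 * K * e0 * τ := by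
        have := hs.2
        gcongr
      exact b1.trans b3
    have a4 : G * (1/2) * (Lm (U s) - Lm (U 0)) ≤ G * (1/2) * (Lm (U t) - Lm (U 0)) := by
      gcongr
    have a5 : G * (1/2) * (Lm (U s) - Lm (U 0)) =
      G * (1/2) * Lm (U s) - G * (1/2) * Lm (U 0) := by ring
    linarith
  have hD : ∀ s ∈ Icc 0 τ, (Y / 2) ^ 2 / N2 ≤ Dm (U s) := by
    intro s hs
    have hs' : s ∈ Icc 0 t := ⟨hs.1, hs.2.trans hτt⟩
    refine le_trans ?_ ((S.snap s hs').cauchy (y0 := y0) (y1 := y1) hc hN hN2)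
    have b1 := hYs s hs
    have b2 : ε * Ym y0 y1 c (U s) ≤ |Ym y0 y1 c (U s)| := by
      calc ε * Ym y0 y1 c (U s) ≤ |ε * Ym y0 y1 c (U s)| := le_abs_self _
        _ = |ε| * |Ym y0 y1 c (U s)| := abs_mul _ _
        _ ≤ 1 * |Ym y0 y1 c (U s)| := mul_le_mul_of_nonneg_right hε (abs_nonneg _)
        _ = _ := one_mul _
    have b3 : (Y / 2) ^ 2 ≤ Ym y0 y1 c (U s) ^ 2 := by
      rw [← sq_abs (Ym y0 y1 c (U s))]
      exact pow_le_pow_left₀ (by positivity) (b1.trans b2) 2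
    gcongr
  have mW : MonotoneOn (fun s => Lm (U s) - (Y / 2) ^ 2 / N2 * s) (Icc 0 τ) := by
    have hsub : Ioo 0 τ ⊆ Ioo 0 t := Ioo_subset_Ioo_right hτt
    have hd : ∀ s ∈ Ioo 0 τ, HasDerivAt (fun s => Lm (U s) - (Y / 2) ^ 2 / N2 * s)
        (Dm (U s) - (Y / 2) ^ 2 / N2 * 1) s := fun s hs =>
        (dL s (hsub hs)).sub ((hasDerivAt_id' s).const_mul _)
    refine monotoneOn_of_deriv_nonneg (convex_Icc 0 τ) ?_ ?_ ?_
    · exact (cL.mono (Icc_subset_Icc_right hτt)).sub (continuousOn_const.mul continuousOn_id)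
    · rw [interior_Icc]
      exact fun s hs => (hd s hs).differentiableAt.differentiableWithinAt
    · rw [interior_Icc]
      intro s hs
      rw [(hd s hs).deriv]
      have := hD s (Ioo_subset_Icc_self hs)
      linarith
  have w1 := mW ⟨le_rfl, hτ.le⟩ ⟨hτ.le, le_rfl⟩ hτ.le
  have w2 := mL ⟨hτ.le, hτt⟩ mt hτt
  simp only [mul_zero, sub_zero] at w1 w2
  linarith

end

end Pool.Agent.Helper48.HalfEuler
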