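import Pool.Agent.Helper48.HE.Calc

open Set MeasureTheory Filter Topology

namespace Pool.Agent.Helper48.HalfEuler

/-- The shifted coordinates. -/
def rr (y0 y1 c : ℝ) : Fin 3 → P3 → ℝ
  | 0, p => p.1.1 - y0
  | 1, p => p.1.2 - y1
  | 2, p => p.2 + c

/-- squared distance to the pole below the wall -/
def QQ (y0 y1 c : ℝ) (p : P3) : ℝ := (p.1.1 - y0) ^ 2 + (p.1.2 - y1) ^ 2 + (p.2 + c) ^ 2

/-- inverse distance to the pole -/
noncomputable def NN (y0 y1 c : ℝ) (p : P3) : ℝ := (Real.sqrt (QQ y0 y1 c p))⁻¹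

section
variable {y0 y1 c : ℝ}

lemma QQ_pos (hc : 0 < c) {p : P3} (hp : p ∈ H3) : 0 < QQ y0 y1 c p := by
  have h : 0 ≤ p.2 := hp
  unfold QQ; positivity

lemma sqrt_pos' (hc : 0 < c) {p : P3} (hp : p ∈ H3) : 0 < Real.sqrt (QQ y0 y1 c p) :=
  Real.sqrt_pos.2 (QQ_pos hc hp)

lemma NN_pos (hc : 0 < c) {p : P3} (hp : p ∈ H3) : 0 < NN y0 y1 c p := by
  have := sqrt_pos' (y0 := y0) (y1 := y1) hc hp
  unfold NN; positivity

lemma QQ_eq (p : P3) : QQ y0 y1 c p = rr y0 y1 c 0 p ^ 2 + rr y0 y1 c 1 p ^ 2 + rr y0 y1 c 2 p ^ 2 :=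
  rfl

lemma QN (hc : 0 < c) {p : P3} (hp : p ∈ H3) :
    (rr y0 y1 c 0 p ^ 2 + rr y0 y1 c 1 p ^ 2 + rr y0 y1 c 2 p ^ 2) * NN y0 y1 c p ^ 2 = 1 := by
  rw [← QQ_eq]
  have h := sqrt_pos' (y0 := y0) (y1 := y1) hc hp
  have h2 : Real.sqrt (QQ y0 y1 c p) ^ 2 = QQ y0 y1 c p := Real.sq_sqrt (QQ_pos hc hp).le
  unfold NN
  rw [← h2, Real.sqrt_sq h.le]
  field_simp

lemma hasD_rr (i j : Fin 3) : HasD j (rr y0 y1 c i) (fun _ => if i = j then 1 else 0) := by
  have h := hasD_co i j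
  fin_cases i
  · refine (h.sub (HasD.const y0)).cast rfl fun p _ => by simp
  · refine (h.sub (HasD.const y1)).cast rfl fun p _ => by simp
  · refine (h.add (HasD.const c)).cast rfl fun p _ => by simp

lemma hasD_NN (hc : 0 < c) (j : Fin 3) :
    HasD j (NN y0 y1 c) (fun p => -rr y0 y1 c j p * NN y0 y1 c p ^ 3) := by
  have hQ : HasD j (QQ y0 y1 c) (fun p => 2 * rr y0 y1 c j p) := by
    refine ((((hasD_rr (y0 := y0) (y1 := y1) (c := c) 0 j).pow 2).add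
      ((hasD_rr (y0 := y0) (y1 := y1) (c := c) 1 j).pow 2)).add
        ((hasD_rr (y0 := y0) (y1 := y1) (c := c) 2 j).pow 2)).cast rfl fun p _ => ?_
    fin_cases j <;> simp
  intro p hp hj
  have h1 := hQ p hp hj
  have hpos := QQ_pos (y0 := y0) (y1 := y1) hc hp
  have hs := sqrt_pos' (y0 := y0) (y1 := y1) hc hp
  have h2 := (h1.sqrt (by rw [ln_co]; exact hpos.ne')).inv (by rw [ln_co]; exact hs.ne')
  rw [ln_co] at h2
  refine h2.congr_deriv ?_
  unfold NN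
  have h3 : Real.sqrt (QQ y0 y1 c p) ^ 2 = QQ y0 y1 c p := Real.sq_sqrt (QQ_pos hc hp).le
  field_simp

/-- the test potential -/
noncomputable def ph (y0 y1 c : ℝ) (p : P3) : ℝ :=
  NN y0 y1 c p ^ 3 - 3 * (rr y0 y1 c 2 p ^ 2 * NN y0 y1 c p ^ 5)

/-- first derivatives -/
noncomputable def ph1 (y0 y1 c : ℝ) (i : Fin 3) (p : P3) : ℝ :=
  -3 * (rr y0 y1 c i p * NN y0 y1 c p ^ 5)
  + 15 * (rr y0 y1 c 2 p ^ 2 * rr y0 y1 c i p * NN y0 y1 c p ^ 7)
  - (if i = 2 then 6 else 0) * (rr y0 y1 c 2 p * NN y0 y1 c p ^ 5)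

/-- second derivatives -/
noncomputable def ph2 (y0 y1 c : ℝ) (i j : Fin 3) (p : P3) : ℝ :=
  -3 * ((if i = j then 1 else 0) * NN y0 y1 c p ^ 5)
  + 15 * (rr y0 y1 c i p * rr y0 y1 c j p * NN y0 y1 c p ^ 7)
  - (if i = 2 then 6 else 0) * ((if 2 = j then 1 else 0) * NN y0 y1 c p ^ 5
      - 5 * (rr y0 y1 c 2 p * rr y0 y1 c j p * NN y0 y1 c p ^ 7))
  + 15 * (2 * rr y0 y1 c 2 p * (if 2 = j then 1 else 0) * rr y0 y1 c i p * NN y0 y1 c p ^ 7
      + rr y0 y1 c 2 p ^ 2 * (if i = j then 1 else 0) * NN y0 y1 c p ^ 7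
      - 7 * (rr y0 y1 c 2 p ^ 2 * rr y0 y1 c i p * rr y0 y1 c j p * NN y0 y1 c p ^ 9))

lemma hasD_ph (hc : 0 < c) (j : Fin 3) : HasD j (ph y0 y1 c) (ph1 y0 y1 c j) := by
  have hN := hasD_NN (y0 := y0) (y1 := y1) hc j
  have hr := hasD_rr (y0 := y0) (y1 := y1) (c := c) 2 j
  refine ((hN.pow 3).sub (((hr.pow 2).mul (hN.pow 5)).const_mul 3)).cast rfl fun p _ => ?_
  unfold ph1
  fin_cases j <;> simp <;> ring

lemma hasD_ph1 (hc : 0 < c) (i j : Fin 3) : HasD j (ph1 y0 y1 c i) (ph2 y0 y1 c i j) := by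
  have hN := hasD_NN (y0 := y0) (y1 := y1) hc j
  have hr := hasD_rr (y0 := y0) (y1 := y1) (c := c) 2 j
  have hi := hasD_rr (y0 := y0) (y1 := y1) (c := c) i j
  refine ((((hi.mul (hN.pow 5)).const_mul (-3)).add
    ((((hr.pow 2).mul hi).mul (hN.pow 7)).const_mul 15)).sub
      ((hr.mul (hN.pow 5)).const_mul (if i = 2 then 6 else 0))).cast rfl fun p _ => ?_
  unfold ph2
  fin_cases i <;> fin_cases j <;> simp <;> ring

lemma ph2_symm (i j : Fin 3) (p : P3) : ph2 y0 y1 c i j p = ph2 y0 y1 c j i p := by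
  unfold ph2
  fin_cases i <;> fin_cases j <;> simp <;> ring

lemma ph2_trace (hc : 0 < c) {p : P3} (hp : p ∈ H3) : ∑ i, ph2 y0 y1 c i i p = 0 := by
  have h := QN (y0 := y0) (y1 := y1) hc hp
  rw [Fin.sum_univ_three]
  unfold ph2
  simp
  linear_combination (15 * NN y0 y1 c p ^ 5 - 105 * rr y0 y1 c 2 p ^ 2 * NN y0 y1 c p ^ 7) * h

/-! ### decay -/

lemma Dec.pow {γ : ℝ} {F : P3 → ℝ} (hF : Dec γ F) (n : ℕ) : Dec (n * γ) (fun p => F p ^ n) := by
  induction n with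
  | zero => simpa using Dec.const 1
  | succ n ih =>
    have := ih.mul hF
    simp only [← pow_succ] at this
    refine this.mono ?_
    push_cast
    linarith

lemma dec_rr (i : Fin 3) : Dec (-1) (rr y0 y1 c i) := by
  fin_cases i
  · exact Dec.co1.sub ((Dec.const y0).mono (by norm_num))
  · exact Dec.co2.sub ((Dec.const y1).mono (by norm_num))
  · exact Dec.height.add ((Dec.const c).mono (by norm_num))

lemma continuousOn_NN (hc : 0 < c) : ContinuousOn (NN y0 y1 c) H3 := by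
  have h1 : Continuous (QQ y0 y1 c) := by
    unfold QQ; fun_prop
  refine ContinuousOn.inv₀ (Real.continuous_sqrt.comp h1).continuousOn fun p hp => ?_
  exact (sqrt_pos' hc hp).ne'

lemma abs_rr_le (i : Fin 3) (p : P3) : |rr y0 y1 c i p| ≤ Real.sqrt (QQ y0 y1 c p) := by
  refine Real.abs_le_sqrt ?_
  rw [QQ_eq]
  fin_cases i <;> simp <;> nlinarith [sq_nonneg (rr y0 y1 c 0 p), sq_nonneg (rr y0 y1 c 1 p),
    sq_nonneg (rr y0 y1 c 2 p)]

lemma dec_NN (hc : 0 < c) : Dec 1 (NN y0 y1 c) := by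
  refine Dec.mk' (C := 1 + (1 + |y0| + |y1| + c) / c) (continuousOn_NN hc) fun p hp => ?_
  have hs := sqrt_pos' (y0 := y0) (y1 := y1) hc hp
  have hN := NN_pos (y0 := y0) (y1 := y1) hc hp
  rw [abs_of_pos hN, Real.rpow_neg_one]
  have h0 := abs_rr_le (y0 := y0) (y1 := y1) (c := c) 0 p
  have h1 := abs_rr_le (y0 := y0) (y1 := y1) (c := c) 1 p
  have h2 := abs_rr_le (y0 := y0) (y1 := y1) (c := c) 2 p
  have hp0 : 0 ≤ p.2 := hp
  have hcs : c ≤ Real.sqrt (QQ y0 y1 c p) := by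
    refine le_trans ?_ h2
    change c ≤ |p.2 + c|
    rw [abs_of_pos (by linarith)]
    linarith
  have hn : ‖p‖ ≤ Real.sqrt (QQ y0 y1 c p) + (|y0| + |y1| + c) := by
    have e0 : |p.1.1| ≤ |rr y0 y1 c 0 p| + |y0| := by
      have : p.1.1 = rr y0 y1 c 0 p + y0 := by change _ = (p.1.1 - y0) + y0; ring
      rw [this]; exact abs_add_le _ _
    have e1 : |p.1.2| ≤ |rr y0 y1 c 1 p| + |y1| := by
      have : p.1.2 = rr y0 y1 c 1 p + y1 := by change _ = (p.1.2 - y1) + y1; ring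
      rw [this]; exact abs_add_le _ _
    have e2 : |p.2| ≤ |rr y0 y1 c 2 p| := by
      change _ ≤ |p.2 + c|
      rw [abs_of_nonneg hp0, abs_of_pos (by linarith)]
      linarith
    have a0 := abs_nonneg y0
    have a1 := abs_nonneg y1
    rw [Prod.norm_def, Prod.norm_def]
    simp only [Real.norm_eq_abs, max_le_iff]
    refine ⟨⟨?_, ?_⟩, ?_⟩ <;> linarith
  have a0 := abs_nonneg y0
  have a1 := abs_nonneg y1
  have hK : 1 + ‖p‖ ≤ (1 + (1 + |y0| + |y1| + c) / c) * Real.sqrt (QQ y0 y1 c p) := by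
    have : (1 + |y0| + |y1| + c) ≤ (1 + |y0| + |y1| + c) / c * Real.sqrt (QQ y0 y1 c p) := by
      rw [div_mul_eq_mul_div, le_div_iff₀ hc]
      exact mul_le_mul_of_nonneg_left hcs (by positivity)
    linarith
  have hw := w_pos p
  unfold NN
  rw [← div_eq_mul_inv, le_div_iff₀ hw, inv_mul_le_iff₀ hs]
  linarith

lemma dec_ph (hc : 0 < c) : Dec 3 (ph y0 y1 c) := by
  have hN := dec_NN (y0 := y0) (y1 := y1) hc
  have hr := dec_rr (y0 := y0) (y1 := y1) (c := c) 2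
  refine ((hN.pow 3).mono (by norm_num)).sub ?_
  exact (((hr.pow 2).mul (hN.pow 5)).const_mul 3).mono (by norm_num)

lemma dec_ph1 (hc : 0 < c) (i : Fin 3) : Dec 4 (ph1 y0 y1 c i) := by
  have hN := dec_NN (y0 := y0) (y1 := y1) hc
  have hr := dec_rr (y0 := y0) (y1 := y1) (c := c) 2
  have hi := dec_rr (y0 := y0) (y1 := y1) (c := c) i
  refine ((((hi.mul (hN.pow 5)).const_mul (-3)).mono (by norm_num)).add
    (((((hr.pow 2).mul hi).mul (hN.pow 7)).const_mul 15).mono (by norm_num))).sub ?_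
  exact ((hr.mul (hN.pow 5)).const_mul _).mono (by norm_num)

lemma dec_ph2 (hc : 0 < c) (i j : Fin 3) : Dec 5 (ph2 y0 y1 c i j) := by
  have hN := dec_NN (y0 := y0) (y1 := y1) hc
  have hr := dec_rr (y0 := y0) (y1 := y1) (c := c) 2
  have hi := dec_rr (y0 := y0) (y1 := y1) (c := c) i
  have hj := dec_rr (y0 := y0) (y1 := y1) (c := c) j
  have k1 : ∀ k : ℝ, Dec 0 (fun _ => k) := Dec.const
  refine Dec.add (Dec.sub (Dec.add ?_ ?_) ?_) ?_
  · exact (((k1 _).mul (hN.pow 5)).const_mul (-3)).mono (by norm_num)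
  · exact (((hi.mul hj).mul (hN.pow 7)).const_mul 15).mono (by norm_num)
  · refine Dec.const_mul _ (Dec.sub ?_ ?_)
    · exact ((k1 _).mul (hN.pow 5)).mono (by norm_num)
    · exact (((hr.mul hj).mul (hN.pow 7)).const_mul 5).mono (by norm_num)
  · refine Dec.const_mul _ (Dec.sub (Dec.add ?_ ?_) ?_)
    · exact ((((hr.const_mul 2).mul (k1 _)).mul hi).mul (hN.pow 7)).mono (by norm_num)
    · exact (((hr.pow 2).mul (k1 _)).mul (hN.pow 7)).mono (by norm_num)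
    · exact (((((hr.pow 2).mul hi).mul hj).mul (hN.pow 9)).const_mul 7).mono (by norm_num)

/-! ### the wall test field -/

/-- the Poisson kernel -/
noncomputable def hh (y0 y1 c : ℝ) (p : P3) : ℝ := c * NN y0 y1 c p ^ 3

/-- its horizontal gradient -/
noncomputable def ff (y0 y1 c : ℝ) (i : Fin 3) (p : P3) : ℝ :=
  -3 * c * (rr y0 y1 c i p * NN y0 y1 c p ^ 5)

/-- derivatives of the wall test field -/
noncomputable def ff1 (y0 y1 c : ℝ) (i j : Fin 3) (p : P3) : ℝ :=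
  -3 * c * ((if i = j then 1 else 0) * NN y0 y1 c p ^ 5
    - 5 * (rr y0 y1 c i p * rr y0 y1 c j p * NN y0 y1 c p ^ 7))

lemma hasD_hh (hc : 0 < c) (j : Fin 3) : HasD j (hh y0 y1 c) (ff y0 y1 c j) := by
  have hN := hasD_NN (y0 := y0) (y1 := y1) hc j
  refine ((hN.pow 3).const_mul c).cast rfl fun p _ => ?_
  unfold ff
  simp
  ring

lemma hasD_ff (hc : 0 < c) (i j : Fin 3) : HasD j (ff y0 y1 c i) (ff1 y0 y1 c i j) := by
  have hN := hasD_NN (y0 := y0) (y1 := y1) hc j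
  have hi := hasD_rr (y0 := y0) (y1 := y1) (c := c) i j
  refine ((hi.mul (hN.pow 5)).const_mul (-3 * c)).cast rfl fun p _ => ?_
  unfold ff1
  fin_cases i <;> fin_cases j <;> simp <;> (left; ring)

lemma dec_hh (hc : 0 < c) : Dec 3 (hh y0 y1 c) :=
  (((dec_NN (y0 := y0) (y1 := y1) hc).pow 3).const_mul c).mono (by norm_num)

lemma dec_ff (hc : 0 < c) (i : Fin 3) : Dec 4 (ff y0 y1 c i) :=
  (((dec_rr (y0 := y0) (y1 := y1) (c := c) i).mul
    ((dec_NN (y0 := y0) (y1 := y1) hc).pow 5)).const_mul (-3 * c)).mono (by norm_num)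

lemma dec_ff1 (hc : 0 < c) (i j : Fin 3) : Dec 5 (ff1 y0 y1 c i j) := by
  have hN := dec_NN (y0 := y0) (y1 := y1) hc
  have hi := dec_rr (y0 := y0) (y1 := y1) (c := c) i
  have hj := dec_rr (y0 := y0) (y1 := y1) (c := c) j
  refine Dec.const_mul _ (Dec.sub ?_ ?_)
  · exact ((Dec.const _).mul (hN.pow 5)).mono (by norm_num)
  · exact (((hi.mul hj).mul (hN.pow 7)).const_mul 5).mono (by norm_num)

/-- On the wall, the divergence of the test field is minus the normal derivative of the test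
potential. -/
lemma ff1_wall (hc : 0 < c) (q : ℝ × ℝ) :
    ff1 y0 y1 c 0 0 (q, 0) + ff1 y0 y1 c 1 1 (q, 0) = - ph1 y0 y1 c 2 (q, 0) := by
  have h := QN (y0 := y0) (y1 := y1) hc (p := (q, 0)) (by simp [H3])
  have hr : rr y0 y1 c 2 (q, 0) = c := by simp [rr]
  unfold ff1 ph1
  rw [hr] at h ⊢
  simp
  linear_combination (15 * c * NN y0 y1 c (q, 0) ^ 5) * h

end

end Pool.Agent.Helper48.HalfEuler
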