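import Pool.Agent.Helper48.HE.TestIneq

open Set MeasureTheory Filter Topology

namespace Pool.Agent.Helper48.HalfEuler

/-- The point with given coordinates. -/
def e3 (p : P3) : E := ![p.1.1, p.1.2, p.2]

@[simp] lemma e3_zero (p : P3) : e3 p 0 = p.1.1 := rfl
@[simp] lemma e3_one (p : P3) : e3 p 1 = p.1.2 := rfl
@[simp] lemma e3_two (p : P3) : e3 p 2 = p.2 := rfl

lemma norm_e3 (p : P3) : ‖e3 p‖ = ‖p‖ := by
  apply le_antisymm
  · rw [pi_norm_le_iff_of_nonneg (norm_nonneg _)]
    intro i
    fin_cases i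
    · exact (norm_fst_le p.1).trans (norm_fst_le p)
    · exact (norm_snd_le p.1).trans (norm_fst_le p)
    · exact norm_snd_le p
  · have h0 := norm_le_pi_norm (e3 p) 0
    have h1 := norm_le_pi_norm (e3 p) 1
    have h2 := norm_le_pi_norm (e3 p) 2
    rw [Prod.norm_def, Prod.norm_def]
    exact max_le (max_le h0 h1) h2

lemma e3_mem {p : P3} (hp : p ∈ H3) : e3 p ∈ Mbar := hp

lemma continuous_e3 : Continuous e3 := by
  refine continuous_pi fun i => ?_
  fin_cases i
  · exact continuous_fst.comp continuous_fst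
  · exact continuous_snd.comp continuous_fst
  · exact continuous_snd

lemma exists_e3 {x : E} (hx : x ∈ Mbar) : ∃ p ∈ H3, e3 p = x := by
  refine ⟨((x 0, x 1), x 2), hx, ?_⟩
  ext i
  fin_cases i <;> rfl

lemma Mbar_eq : Mbar = (fun x : E => x 2) ⁻¹' (Ici 0) := rfl

lemma convex_Mbar : Convex ℝ Mbar := by
  intro x hx y hy a b ha hb _
  change 0 ≤ (a • x + b • y) 2
  have h1 : 0 ≤ x 2 := hx
  have h2 : 0 ≤ y 2 := hy
  simp only [Pi.add_apply, Pi.smul_apply, smul_eq_mul]
  positivity

lemma uniqueDiffOn_Mbar : UniqueDiffOn ℝ Mbar := by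
  refine uniqueDiffOn_convex convex_Mbar ?_
  have h : IsOpen {x : E | 0 < x 2} := isOpen_lt continuous_const (continuous_apply 2)
  refine ⟨fun _ => 1, ?_⟩
  refine mem_interior.2 ⟨{x : E | 0 < x 2}, fun x (hx : 0 < x 2) => (le_of_lt hx : 0 ≤ x 2), h, ?_⟩
  simp

lemma hasDerivAt_e3_ln (j : Fin 3) (p : P3) :
    HasDerivAt (fun s => e3 (ln j p s)) (Pi.single j (1:ℝ)) (co j p) := by
  rw [hasDerivAt_pi]
  intro i
  fin_cases j <;> fin_cases i <;>
    simp only [e3, ln, co, Fin.zero_eta, Fin.mk_one, Fin.reduceFinMk, Fin.isValue,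
      Matrix.cons_val_zero, Matrix.cons_val_one, Matrix.cons_val_two, Matrix.head_cons,
      Matrix.tail_cons, Pi.single_eq_same, ne_eq, Fin.reduceEq, not_false_eq_true,
      Pi.single_eq_of_ne, zero_ne_one, one_ne_zero]
  all_goals first | exact hasDerivAt_id' _ | exact hasDerivAt_const _ _

lemma hasD_lift {f : E → ℝ} (hf : DifferentiableOn ℝ f Mbar) (j : Fin 3) :
    HasD j (fun p => f (e3 p)) (fun p => pd j f (e3 p)) := by
  intro p hp hj
  have h1 := (hf (e3 p) (e3_mem hp)).hasFDerivWithinAt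
  have h2 := hasDerivAt_e3_ln j p
  have h3 : HasFDerivWithinAt f (fderivWithin ℝ f Mbar (e3 p)) Mbar (e3 (ln j p (co j p))) := by
    rw [ln_co]; exact h1
  have hev : ∀ᶠ s in 𝓝 (co j p), e3 (ln j p s) ∈ Mbar := by
    fin_cases j
    · exact Eventually.of_forall fun s => hp
    · exact Eventually.of_forall fun s => hp
    · have h : 0 < p.2 := hj rfl
      filter_upwards [lt_mem_nhds h] with s hs
      exact le_of_lt hs
  exact h3.comp_hasDerivAt _ h2 hev

lemma continuousOn_pd {f : E → ℝ} (hf : ContDiffOn ℝ 1 f Mbar) (j : Fin 3) :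
    ContinuousOn (pd j f) Mbar := by
  have h := hf.continuousOn_fderivWithin uniqueDiffOn_Mbar le_rfl
  exact h.clm_apply continuousOn_const

lemma dec_lift {f : E → ℝ} {γ C : ℝ} (hf : ContinuousOn f Mbar)
    (hb : ∀ x ∈ Mbar, |f x| ≤ C * (1 + ‖x‖) ^ (-γ)) : Dec γ (fun p => f (e3 p)) := by
  refine Dec.mk' (C := C) (hf.comp continuous_e3.continuousOn fun p hp => e3_mem hp) fun p hp => ?_
  rw [← norm_e3]
  exact hb _ (e3_mem hp)

lemma pd_zero (i j : Fin 3) (x : E) : pd j (fun z => (0 : E → E) z i) x = 0 := by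
  have : (fun z : E => (0 : E → E) z i) = fun _ => (0:ℝ) := rfl
  rw [this]
  unfold pd
  rw [fderivWithin_const_apply]
  rfl

/-- The lift of an element of the phase space. -/
lemma IsVelocity.snap {α β : ℝ} {v : E → E} (hβ : 3 < β) (hv : IsVelocity α β v) :
    Snap β (fun i p => v (e3 p) i) (fun i j p => pd j (fun x => v x i) (e3 p)) := by
  obtain ⟨h1, ⟨C, hC⟩, hd, ht, hc⟩ := hv
  refine ⟨hβ, fun i => ?_, fun i j => ?_, fun i j => ?_, ?_, ?_, ?_⟩
  · refine dec_lift (f := fun x => v x i) (C := C) (h1 i).continuousOn fun x hx => ?_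
    have := (hC i x hx).1
    simpa using this
  · refine dec_lift (C := C) (continuousOn_pd (h1 i) j) fun x hx => ?_
    have := ((hC i x hx).2 j).1
    rwa [pd_zero, sub_zero] at this
  · exact hasD_lift ((h1 i).differentiableOn one_ne_zero) j
  · intro p hp
    exact hd _ (e3_mem hp)
  · intro q
    exact ht _ (e3_mem (zero_mem_H3 q)) rfl
  · intro q
    exact hc _ (e3_mem (zero_mem_H3 q)) rfl

/-! ### The pressure has a limit at infinity -/

lemma exists_limit {β : ℝ} (hβ : 1 < β) {F : P3 → ℝ} {DF : Fin 3 → P3 → ℝ}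
    (hc : ContinuousOn F H3) (hD : ∀ i, HasD i F (DF i)) (hd : ∀ i, Dec β (DF i)) :
    ∃ L, Dec (β - 1) (fun p => F p - L) := by
  obtain ⟨C, hC0, hC⟩ : ∃ C, 0 ≤ C ∧ ∀ i, ∀ p ∈ H3, |DF i p| ≤ C * (1 + ‖p‖) ^ (-β) := by
    obtain ⟨-, C0, h0, hb0⟩ := hd 0
    obtain ⟨-, C1, h1, hb1⟩ := hd 1
    obtain ⟨-, C2, h2, hb2⟩ := hd 2
    refine ⟨C0 + C1 + C2, by positivity, fun i p hp => ?_⟩
    have hw := w_nonneg (-β) p
    fin_cases i
    · exact (hb0 p hp).trans (mul_le_mul_of_nonneg_right (by linarith) hw)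
    · exact (hb1 p hp).trans (mul_le_mul_of_nonneg_right (by linarith) hw)
    · exact (hb2 p hp).trans (mul_le_mul_of_nonneg_right (by linarith) hw)
  -- the comparison function
  have hw : ∀ (q : ℝ × ℝ) (s : ℝ), 0 ≤ s →
      (1 + ‖((q, s) : P3)‖) ^ (-β) ≤ 2 ^ β * (1 + ‖q‖ + s) ^ (-β) := by
    intro q s hs
    have hq := norm_nonneg q
    have h1 : (1 + ‖q‖ + s) / 2 ≤ 1 + ‖((q, s) : P3)‖ := by
      have a1 := norm_fst_le ((q, s) : P3)
      have a2 := norm_snd_le ((q, s) : P3)
      simp only [Real.norm_eq_abs, abs_of_nonneg hs] at a1 a2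
      linarith
    have h2 := Real.rpow_le_rpow_of_nonpos (by positivity : 0 < (1 + ‖q‖ + s) / 2) h1
      (by linarith : -β ≤ 0)
    refine h2.trans (le_of_eq ?_)
    rw [Real.div_rpow (by positivity) (by norm_num), Real.rpow_neg (by norm_num : (0:ℝ) ≤ 2)]
    field_simp
  have hInt : ∀ (m z : ℝ), 0 ≤ m → 0 ≤ z →
      IntegrableOn (fun s : ℝ => (1 + m + s) ^ (-β)) (Ioi z) ∧
      ∫ s in Ioi z, (1 + m + s) ^ (-β) = (1 + m + z) ^ (1 - β) / (β - 1) := by
    intro m z hm hz
    have hder : ∀ s ∈ Ioi z, HasDerivAt (fun s : ℝ => -((1 + m + s) ^ (1 - β) / (β - 1)))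
        ((1 + m + s) ^ (-β)) s := by
      intro s hs
      have hs' : z < s := hs
      have h1 : HasDerivAt (fun s : ℝ => 1 + m + s) 1 s := by
        simpa using (hasDerivAt_id s).const_add (1 + m)
      have h2 := ((h1.rpow_const (p := 1 - β) (Or.inl (by linarith))).div_const (β - 1)).neg
      refine h2.congr_deriv ?_
      have h3 : β - 1 ≠ 0 := by linarith
      have h4 : (1 - β - 1) = -β := by ring
      rw [h4]
      field_simp
      ring
    have hcont : ContinuousWithinAt (fun s : ℝ => -((1 + m + s) ^ (1 - β) / (β - 1))) (Ici z) z := by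
      refine ContinuousAt.continuousWithinAt ?_
      refine ((ContinuousAt.rpow_const (by fun_prop) (Or.inl (by linarith))).div_const _).neg
    have ht : Tendsto (fun s : ℝ => -((1 + m + s) ^ (1 - β) / (β - 1))) atTop (𝓝 0) := by
      have h2 : Tendsto (fun s : ℝ => (1 + m + s)) atTop atTop :=
        tendsto_atTop_add_const_left _ _ tendsto_id
      have h3 := (((tendsto_rpow_neg_atTop (by linarith : 0 < β - 1)).comp h2).div_const
        (β - 1)).neg
      have h4 : -(β - 1) = 1 - β := by ring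
      simpa [h4] using h3
    have hi : IntegrableOn (fun s : ℝ => (1 + m + s) ^ (-β)) (Ioi z) :=
      integrableOn_Ioi_deriv_of_nonneg hcont hder
        (fun s hs => Real.rpow_nonneg (by have : z < s := hs; linarith) _) ht
    refine ⟨hi, ?_⟩
    rw [integral_Ioi_of_hasDerivAt_of_tendsto hcont hder hi ht]
    ring
  have hvert : ∀ (q : ℝ × ℝ) (z : ℝ), 0 ≤ z → IntegrableOn (fun s => DF 2 (q, s)) (Ioi z) ∧
      |∫ s in Ioi z, DF 2 (q, s)| ≤ C * 2 ^ β / (β - 1) * (1 + ‖((q, z) : P3)‖) ^ (-(β - 1)) := by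
    intro q z hz
    obtain ⟨i1, i2⟩ := hInt ‖q‖ z (norm_nonneg q) hz
    have hbd : ∀ s ∈ Ioi z, ‖DF 2 (q, s)‖ ≤ C * 2 ^ β * (1 + ‖q‖ + s) ^ (-β) := by
      intro s hs
      have hs' : 0 ≤ s := hz.trans (le_of_lt hs)
      refine (hC 2 (q, s) hs').trans ?_
      rw [mul_assoc]
      exact mul_le_mul_of_nonneg_left (hw q s hs') hC0
    have hi : IntegrableOn (fun s => DF 2 (q, s)) (Ioi z) := by
      refine Integrable.mono' (i1.const_mul (C * 2 ^ β)) ?_ ?_
      · refine ContinuousOn.aestronglyMeasurable ?_ measurableSet_Ioi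
        exact (hd 2).1.comp (by fun_prop) (fun s (hs : z < s) => (le_of_lt (hz.trans_lt hs) : 0 ≤ s))
      · exact (ae_restrict_iff' measurableSet_Ioi).2 (Eventually.of_forall hbd)
    refine ⟨hi, ?_⟩
    rw [← Real.norm_eq_abs]
    calc ‖∫ s in Ioi z, DF 2 (q, s)‖ ≤ ∫ s in Ioi z, C * 2 ^ β * (1 + ‖q‖ + s) ^ (-β) := by
          refine norm_integral_le_of_norm_le (i1.const_mul _) ?_
          exact (ae_restrict_iff' measurableSet_Ioi).2 (Eventually.of_forall hbd)
      _ = C * 2 ^ β / (β - 1) * (1 + ‖q‖ + z) ^ (1 - β) := by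
          rw [integral_const_mul, i2]; ring
      _ ≤ _ := by
          have hb1 : 0 < β - 1 := by linarith
          refine mul_le_mul_of_nonneg_left ?_ (by positivity)
          have h4 : -(β - 1) = 1 - β := by ring
          rw [h4]
          refine Real.rpow_le_rpow_of_nonpos (w_pos _) ?_ (by linarith)
          have : ‖((q, z) : P3)‖ ≤ ‖q‖ + z := by
            rw [Prod.norm_def]
            simp only [Real.norm_eq_abs, abs_of_nonneg hz]
            exact max_le (by linarith) (by linarith [norm_nonneg q])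
          linarith
  have hlim : ∀ q : ℝ × ℝ, ∃ L, Tendsto (fun s => F (q, s)) atTop (𝓝 L) := by
    intro q
    have h1 : ∀ s ∈ Ioi (0:ℝ), HasDerivAt (fun s => F (q, s)) (DF 2 (q, s)) s := by
      intro s hs
      have hs' : 0 < s := hs
      have := hD 2 (q, s) (le_of_lt hs') (fun _ => hs')
      simpa [ln, co] using this
    exact ⟨_, tendsto_limUnder_of_hasDerivAt_of_integrableOn_Ioi h1 (hvert q 0 le_rfl).1⟩
  choose L hL using hlim
  have hdiff : ∀ (q : ℝ × ℝ) (z : ℝ), 0 ≤ z →
      |F (q, z) - L q| ≤ C * 2 ^ β / (β - 1) * (1 + ‖((q, z) : P3)‖) ^ (-(β - 1)) := by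
    intro q z hz
    have h1 : ∀ s ∈ Ioi z, HasDerivAt (fun s => F (q, s)) (DF 2 (q, s)) s := by
      intro s hs
      have hs' : 0 < s := hz.trans_lt hs
      have := hD 2 (q, s) (le_of_lt hs') (fun _ => hs')
      simpa [ln, co] using this
    have hcont : ContinuousWithinAt (fun s => F (q, s)) (Ici z) z := by
      have : ContinuousOn (fun s => F (q, s)) (Ici z) :=
        hc.comp (by fun_prop) (fun s (hs : z ≤ s) => (hz.trans hs : 0 ≤ s))
      exact this z self_mem_Ici
    obtain ⟨hi, hb⟩ := hvert q z hz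
    have e := integral_Ioi_of_hasDerivAt_of_tendsto hcont h1 hi (hL q)
    rw [e] at hb
    rwa [abs_sub_comm] at hb
  have hconst : ∀ q, L q = L (0, 0) := by
    -- moving one coordinate
    have h0 : ∀ (j : Fin 3) (hj : j ≠ 2) (q : ℝ × ℝ) (s t z : ℝ), 0 ≤ z →
        |F (ln j (q, z) s) - F (ln j (q, z) t)| ≤ C * (1 + |z|) ^ (-β) * |s - t| := by
      intro j hj q s t z hz
      have hmem : ∀ x, ln j (q, z) x ∈ H3 := by
        intro x
        fin_cases j
        · exact hz
        · exact hz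
        · simp at hj
      have hder : ∀ x ∈ (univ : Set ℝ), HasDerivWithinAt (fun x => F (ln j (q, z) x))
          (DF j (ln j (q, z) x)) univ x := by
        intro x _
        have h := hD j (ln j (q, z) x) (hmem x) (fun h => absurd h hj)
        have e1 : (fun s => F (ln j (ln j (q, z) x) s)) = fun s => F (ln j (q, z) s) := by
          funext s; fin_cases j <;> rfl
        have e2 : co j (ln j (q, z) x) = x := by fin_cases j <;> rfl
        rw [e1, e2] at h
        exact h.hasDerivWithinAt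
      have := convex_univ.norm_image_sub_le_of_norm_hasDerivWithin_le (C := C * (1 + |z|) ^ (-β))
        hder (fun x _ => ?_) (mem_univ t) (mem_univ s)
      · simpa using this
      · refine (hC j _ (hmem x)).trans (mul_le_mul_of_nonneg_left ?_ hC0)
        refine Real.rpow_le_rpow_of_nonpos (by positivity) ?_ (by linarith)
        have e3 : (ln j (q, z) x).2 = z := by
          fin_cases j
          · rfl
          · rfl
          · simp at hj
        have := norm_snd_le (ln j (q, z) x)
        rw [e3, Real.norm_eq_abs] at this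
        linarith
    have hw0 : Tendsto (fun z : ℝ => C * (1 + |z|) ^ (-β)) atTop (𝓝 0) := by
      have h2 : Tendsto (fun s : ℝ => (1 + |s|)) atTop atTop :=
        tendsto_atTop_add_const_left _ _ tendsto_abs_atTop_atTop
      have h3 := ((tendsto_rpow_neg_atTop (by linarith : 0 < β)).comp h2).const_mul C
      simpa using h3
    have step : ∀ (j : Fin 3) (hj : j ≠ 2) (q : ℝ × ℝ) (s t : ℝ),
        L (ln j (q, 0) s).1 = L (ln j (q, 0) t).1 := by
      intro j hj q s t
      have e1 : ∀ x z, ln j (q, z) x = ((ln j (q, 0) x).1, z) := by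
        intro x z
        fin_cases j
        · rfl
        · rfl
        · simp at hj
      have t1 := (hL (ln j (q, 0) s).1).sub (hL (ln j (q, 0) t).1)
      have t2 : Tendsto (fun z => F ((ln j (q, 0) s).1, z) - F ((ln j (q, 0) t).1, z)) atTop
          (𝓝 0) := by
        refine squeeze_zero_norm' (a := fun z : ℝ => C * (1 + |z|) ^ (-β) * |s - t|) ?_ ?_
        · filter_upwards [eventually_ge_atTop 0] with z hz
          have := h0 j hj q s t z hz
          rw [e1 s z, e1 t z] at this
          exact this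
        · simpa using hw0.mul_const |s - t|
      have := tendsto_nhds_unique t1 t2
      linarith
    intro q
    have s1 := step 0 (by decide) q q.1 0
    have s2 := step 1 (by decide) (0, q.2) q.2 0
    simp only [ln] at s1 s2
    exact s1.trans s2
  refine ⟨L (0, 0), Dec.mk' (C := C * 2 ^ β / (β - 1)) (hc.sub continuousOn_const) ?_⟩
  intro p hp
  have := hdiff p.1 p.2 hp
  rw [hconst p.1] at this
  exact this

end Pool.Agent.Helper48.HalfEuler
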