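import Pool.Agent.Helper48.HE.Growth
import Pool.Agent.Helper88.HE.LIOU
import Pool.Agent.Helper88.HE.EX

open Set MeasureTheory Filter Topology

namespace Pool.Agent.Helper48.HalfEuler

/-- The coordinates of a velocity field. -/
def cU (v : E → E) : Fin 3 → P3 → ℝ := fun i p => v (e3 p) i

/-- The partial derivatives in coordinates. -/
noncomputable def cD (v : E → E) : Fin 3 → Fin 3 → P3 → ℝ :=
  fun i j p => pd j (fun x => v x i) (e3 p)

lemma pd_zero' (j : Fin 3) (x : E) : pd j (fun _ => (0 : ℝ)) x = 0 := by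
  unfold pd
  rw [fderivWithin_const_apply]
  rfl

/-! ### From solutions to coordinates -/

lemma IsEulerSolution.sol {α β t : ℝ} (hβ : 3 < β) (ht : 0 < t) {u : ℝ → E → E}
    (hu : IsEulerSolution α β t u) :
    ∃ T : ℝ → Fin 3 → P3 → ℝ, Sol β t (fun s => cU (u s)) (fun s => cD (u s)) T := by
  obtain ⟨hv, ⟨C, hC⟩, hcu, hcd, p, hp1, hp2, ⟨Cp, hCp⟩, hpde⟩ := hu
  have hC0 : 0 ≤ C := by
    have h := (hC 0 ⟨le_rfl, ht.le⟩ 0 (e3 0) (e3_mem (show (0:ℝ) ≤ 0 from le_rfl))).1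
    have h2 : (1 + ‖e3 0‖) ^ (-β) = (1:ℝ) := by rw [norm_e3]; simp
    rw [h2, mul_one] at h
    exact (abs_nonneg _).trans h
  have hb : ∀ s ∈ Icc 0 t, ∀ i, ∀ q ∈ H3, |cU (u s) i q| ≤ C * (1 + ‖q‖) ^ (-β) := by
    intro s hs i q hq
    have h := (hC s hs i (e3 q) (e3_mem hq)).1
    rw [norm_e3] at h
    simpa [cU] using h
  have hbd : ∀ s ∈ Icc 0 t, ∀ i j, ∀ q ∈ H3, |cD (u s) i j q| ≤ C * (1 + ‖q‖) ^ (-β) := by
    intro s hs i j q hq
    have h := ((hC s hs i (e3 q) (e3_mem hq)).2 j).1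
    rw [norm_e3, pd_zero, sub_zero] at h
    exact h
  have hbp : ∀ s ∈ Ioo 0 t, ∀ i, ∀ q ∈ H3, |pd i (p s) (e3 q)| ≤ Cp * (1 + ‖q‖) ^ (-β) := by
    intro s hs i q hq
    have h := hCp s hs (e3 q) (e3_mem hq) i
    rwa [norm_e3] at h
  refine ⟨fun s i q => -(∑ j, cU (u s) j q * cD (u s) i j q) - pd i (p s) (e3 q), ?_⟩
  refine ⟨ht, fun s hs => (hv s hs).snap hβ, fun s hs => ?_, ⟨C, hC0, hb⟩,
    ⟨3 * C * C + |Cp|, by positivity, ?_⟩, ?_, ?_⟩
  · have hs' := Ioo_subset_Icc_self hs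
    have S := (hv s hs').snap hβ
    have hDP : ∀ i, Dec β (fun q => pd i (p s) (e3 q)) := fun i => by
      refine dec_lift (C := Cp) ?_ fun x hx => hCp s hs x hx i
      exact (hp2 i).comp (f := fun x : E => (s, x)) (by fun_prop) (fun x hx => ⟨hs, hx⟩)
    have hHD : ∀ i, HasD i (fun q => p s (e3 q)) (fun q => pd i (p s) (e3 q)) :=
      fun i => hasD_lift (hp1 s hs) i
    obtain ⟨L, hL⟩ := exists_limit (by linarith) (F := fun q => p s (e3 q))
      ((hp1 s hs).continuousOn.comp continuous_e3.continuousOn fun q hq => e3_mem hq) hHD hDP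
    refine ⟨fun q => p s (e3 q) - L, fun i q => pd i (p s) (e3 q), ?_⟩
    exact { S with
      decP := hL
      decDP := hDP
      derP := fun i => ((hHD i).sub (HasD.const L)).cast rfl fun q _ => by ring
      eqn := fun i q _ => rfl }
  · intro s hs i q hq
    have hs' := Ioo_subset_Icc_self hs
    have hw := w_nonneg (-β) q
    have hw1 : (1 + ‖q‖) ^ (-β) ≤ 1 := w_le_one (by linarith) q
    have h1 : ∀ j, |cU (u s) j q * cD (u s) i j q| ≤ C * C * (1 + ‖q‖) ^ (-β) := by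
      intro j
      rw [abs_mul]
      calc |cU (u s) j q| * |cD (u s) i j q| ≤ (C * (1 + ‖q‖) ^ (-β)) * (C * (1 + ‖q‖) ^ (-β)) :=
            mul_le_mul (hb s hs' j q hq) (hbd s hs' i j q hq) (abs_nonneg _) (by positivity)
        _ = C * C * (1 + ‖q‖) ^ (-β) * (1 + ‖q‖) ^ (-β) := by ring
        _ ≤ C * C * (1 + ‖q‖) ^ (-β) * 1 := by gcongr
        _ = _ := by ring
    have h2 : |∑ j, cU (u s) j q * cD (u s) i j q| ≤ 3 * C * C * (1 + ‖q‖) ^ (-β) := by
      refine (Finset.abs_sum_le_sum_abs _ _).trans ?_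
      rw [Fin.sum_univ_three]
      linarith [h1 0, h1 1, h1 2]
    have h3 := hbp s hs i q hq
    have h4 : Cp * (1 + ‖q‖) ^ (-β) ≤ |Cp| * (1 + ‖q‖) ^ (-β) :=
      mul_le_mul_of_nonneg_right (le_abs_self _) hw
    calc |-(∑ j, cU (u s) j q * cD (u s) i j q) - pd i (p s) (e3 q)|
        ≤ |-(∑ j, cU (u s) j q * cD (u s) i j q)| + |pd i (p s) (e3 q)| := abs_sub _ _
      _ ≤ _ := by rw [abs_neg, add_mul]; linarith
  · intro i q hq
    exact (hcu i).comp (f := fun s : ℝ => (s, e3 q)) (by fun_prop) (fun s hs => ⟨hs, e3_mem hq⟩)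
  · intro s hs i q hq
    exact hpde s hs (e3 q) (e3_mem hq) i

/-! ### Non-vanishing test -/

lemma exists_test {α β : ℝ} (hβ : 3 < β) {v : E → E} (hv : IsVelocity α β v)
    (hne : ∃ x : E, x 2 = 0 ∧ v x ≠ 0) :
    ∃ y0 y1 c : ℝ, 0 < c ∧ Ym y0 y1 c (cU v) ≠ 0 := by
  have S := hv.snap hβ
  have hcd : ∀ i, ContDiff ℝ 1 (fun q : ℝ × ℝ => v (e3 (q, 0)) i) := by
    intro i
    have h1 : ContDiff ℝ 1 (fun q : ℝ × ℝ => e3 (q, 0)) := by
      rw [contDiff_pi]
      intro k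
      fin_cases k
      · exact contDiff_fst
      · exact contDiff_snd
      · exact contDiff_const
    exact (hv.1 i).comp_contDiff h1 fun q => e3_mem (zero_mem_H3 q)
  have hf : ∀ i, ∀ q : ℝ × ℝ,
      fderiv ℝ (fun q : ℝ × ℝ => v (e3 (q, 0)) i) q (1, 0) = cD v i 0 (q, 0) ∧
      fderiv ℝ (fun q : ℝ × ℝ => v (e3 (q, 0)) i) q (0, 1) = cD v i 1 (q, 0) := by
    intro i q
    have hd := ((hcd i).differentiable one_ne_zero q).hasFDerivAt
    constructor
    · have h1 : HasDerivAt (fun s : ℝ => (s, q.2)) ((1:ℝ), (0:ℝ)) q.1 :=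
        (hasDerivAt_id' q.1).prodMk (hasDerivAt_const _ _)
      have h2 : HasDerivAt (fun s : ℝ => v (e3 ((s, q.2), 0)) i) _ q.1 :=
        HasFDerivAt.comp_hasDerivAt (f := fun s : ℝ => (s, q.2)) q.1 hd h1
      have h3 := S.derU i 0 (q, 0) (zero_mem_H3 q) (by simp)
      exact h2.unique h3
    · have h1 : HasDerivAt (fun s : ℝ => (q.1, s)) ((0:ℝ), (1:ℝ)) q.2 :=
        (hasDerivAt_const _ _).prodMk (hasDerivAt_id' q.2)
      have h2 : HasDerivAt (fun s : ℝ => v (e3 ((q.1, s), 0)) i) _ q.2 :=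
        HasFDerivAt.comp_hasDerivAt (f := fun s : ℝ => (q.1, s)) q.2 hd h1
      have h3 := S.derU i 1 (q, 0) (zero_mem_H3 q) (by simp)
      exact h2.unique h3
  have dU0 := (S.decU 0).slice (by linarith) (le_refl (0:ℝ))
  have dU1 := (S.decU 1).slice (by linarith) (le_refl (0:ℝ))
  have dd := ((S.decDU 0 0).add (S.decDU 1 1)).slice (by linarith) (le_refl (0:ℝ))
  obtain ⟨-, C0, hC0, hb0⟩ := dU0
  obtain ⟨-, C1, hC1, hb1⟩ := dU1
  obtain ⟨-, C2, hC2, hb2⟩ := dd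
  have hne' : ∃ q : ℝ × ℝ, v (e3 (q, 0)) 0 ≠ 0 ∨ v (e3 (q, 0)) 1 ≠ 0 := by
    obtain ⟨x, hx2, hx⟩ := hne
    refine ⟨(x 0, x 1), ?_⟩
    have hx' : e3 ((x 0, x 1), 0) = x := by
      ext i; fin_cases i
      · rfl
      · rfl
      · exact hx2.symm
    rw [hx']
    by_contra hcon
    push Not at hcon
    apply hx
    ext i; fin_cases i
    · exact hcon.1
    · exact hcon.2
    · exact hv.2.2.2.1 x (by change 0 ≤ x 2; rw [hx2]) hx2
  obtain ⟨y0, y1, c, hc, hint⟩ := Pool.Agent.Helper88.HalfEuler.pf_Test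
    (fun q => v (e3 (q, 0)) 0) (fun q => v (e3 (q, 0)) 1) β (C0 + C1 + C2) hβ (hcd 0) (hcd 1)
    (fun q => (hb0 q).trans (mul_le_mul_of_nonneg_right (by linarith) (w_nonneg _ _)))
    (fun q => (hb1 q).trans (mul_le_mul_of_nonneg_right (by linarith) (w_nonneg _ _)))
    (fun q => by
      rw [(hf 0 q).1, (hf 1 q).2]
      exact (hb2 q).trans (mul_le_mul_of_nonneg_right (by linarith) (w_nonneg _ _)))
    (fun q => by
      rw [(hf 1 q).1, (hf 0 q).2]
      exact S.curl q) hne'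
  refine ⟨y0, y1, c, hc, fun h0 => hint ?_⟩
  have e1 : ∀ q : ℝ × ℝ, (c * ((Real.sqrt ((q.1 - y0) ^ 2 + (q.2 - y1) ^ 2 + c ^ 2))⁻¹) ^ 3) =
      hh y0 y1 c (q, 0) := by
    intro q
    simp [hh, NN, QQ]
  have e2 : ∀ q : ℝ × ℝ, (fderiv ℝ (fun q : ℝ × ℝ => v (e3 (q, 0)) 0) q (1, 0) +
      fderiv ℝ (fun q : ℝ × ℝ => v (e3 (q, 0)) 1) q (0, 1)) *
        (c * ((Real.sqrt ((q.1 - y0) ^ 2 + (q.2 - y1) ^ 2 + c ^ 2))⁻¹) ^ 3) =
      (cD v 0 0 (q, 0) + cD v 1 1 (q, 0)) * hh y0 y1 c (q, 0) := by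
    intro q
    rw [e1, (hf 0 q).1, (hf 1 q).2]
  simp only [e2]
  have key : ∀ j : Fin 3, j ≠ 2 → ∫ q : ℝ × ℝ, (cD v j j (q, 0) * hh y0 y1 c (q, 0) +
      cU v j (q, 0) * ff y0 y1 c j (q, 0)) = 0 := by
    intro j hj
    have h1 : HasD j _ _ := (S.derU j j).mul (hasD_hh (y0 := y0) (y1 := y1) hc j)
    exact int2_D (γ := β) (δ := β) hj
      (((S.decU j).mul (dec_hh hc)).mono (by linarith)) (by linarith)
      (Dec.add (((S.decDU j j).mul (dec_hh hc)).mono (by linarith))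
        (((S.decU j).mul (dec_ff hc j)).mono (by linarith))) (by linarith) h1
  have ia : ∀ j, Integrable (fun q : ℝ × ℝ => (cD v j j (q, 0) * hh y0 y1 c (q, 0) +
      cU v j (q, 0) * ff y0 y1 c j (q, 0))) := by
    intro j
    exact (Dec.slice (γ := β) (Dec.add (((S.decDU j j).mul (dec_hh hc)).mono (by linarith))
        (((S.decU j).mul (dec_ff hc j)).mono (by linarith))) (by linarith)
          le_rfl).integrable (by linarith)
  have iY : Integrable (fun q : ℝ × ℝ =>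
      (ff y0 y1 c 0 (q, 0) * cU v 0 (q, 0) + ff y0 y1 c 1 (q, 0) * cU v 1 (q, 0))) :=
    (Dec.slice (γ := β) ((((dec_ff hc 0).mul (S.decU 0)).mono (by linarith)).add
      (((dec_ff hc 1).mul (S.decU 1)).mono (by linarith))) (by linarith) le_rfl).integrable
        (by linarith)
  have f1 := integral_add (ia 0) (ia 1)
  rw [key 0 (by decide), key 1 (by decide), add_zero] at f1
  have f2 := integral_sub ((ia 0).add (ia 1)) iY
  simp only [Pi.add_apply] at f2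
  have h0' : ∫ q : ℝ × ℝ, (ff y0 y1 c 0 (q, 0) * cU v 0 (q, 0) +
    ff y0 y1 c 1 (q, 0) * cU v 1 (q, 0)) = 0 := h0
  rw [f1, h0', sub_zero] at f2
  refine Eq.trans ?_ f2
  congr 1
  funext q
  ring

/-! ### Continuity of the functionals -/

lemma lin_diff {β : ℝ} (hβ : 3 < β) {A U W : Fin 3 → P3 → ℝ} (hA : ∀ i, Dec (-1) (A i))
    (hU : ∀ i, Dec β (U i)) (hW : ∀ i, Dec β (W i)) :
    ∃ c, 0 ≤ c ∧ (∀ r : ℝ, (∀ i, ∀ p ∈ H3, |U i p - W i p| ≤ r * (1 + ‖p‖) ^ (-β)) →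
      |(∫ q : ℝ × ℝ, (A 0 (q, 0) * U 0 (q, 0) + A 1 (q, 0) * U 1 (q, 0))) -
        ∫ q : ℝ × ℝ, (A 0 (q, 0) * W 0 (q, 0) + A 1 (q, 0) * W 1 (q, 0))| ≤ r * c) ∧
      c = ∫ q : ℝ × ℝ, (|A 0 (q, 0)| * (1 + ‖((q, 0) : P3)‖) ^ (-β) +
        |A 1 (q, 0)| * (1 + ‖((q, 0) : P3)‖) ^ (-β)) := by
  have habs : ∀ i, Dec (-1) (fun p => |A i p|) := fun i => by
    obtain ⟨h, C', hC', hb'⟩ := hA i
    exact ⟨h.abs, C', hC', fun p hp => by rw [abs_abs]; exact hb' p hp⟩
  have hint : ∀ V : Fin 3 → P3 → ℝ, (∀ i, Dec β (V i)) →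
      Integrable (fun q : ℝ × ℝ => (A 0 (q, 0) * V 0 (q, 0) + A 1 (q, 0) * V 1 (q, 0))) := by
    intro V hV
    exact (Dec.slice (γ := β - 1) ((((hA 0).mul (hV 0)).mono (by linarith)).add
      (((hA 1).mul (hV 1)).mono (by linarith))) (by linarith) le_rfl).integrable (by linarith)
  have hintB : Integrable (fun q : ℝ × ℝ =>
      (|A 0 (q, 0)| * (1 + ‖((q, 0) : P3)‖) ^ (-β) +
        |A 1 (q, 0)| * (1 + ‖((q, 0) : P3)‖) ^ (-β))) := by
    exact (Dec.slice (γ := β - 1) ((((habs 0).mul (dec_w β)).mono (by linarith)).add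
      (((habs 1).mul (dec_w β)).mono (by linarith))) (by linarith)
        le_rfl).integrable (by linarith)
  refine ⟨_, integral_nonneg fun q => ?_, fun r hr => ?_, rfl⟩
  · have := w_nonneg (-β) ((q, 0) : P3)
    positivity
  · rw [← integral_sub (hint U hU) (hint W hW), ← integral_const_mul, ← Real.norm_eq_abs]
    refine norm_integral_le_of_norm_le (hintB.const_mul r) (Eventually.of_forall fun q => ?_)
    have h0 := hr 0 _ (zero_mem_H3 q)
    have h1 := hr 1 _ (zero_mem_H3 q)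
    rw [Real.norm_eq_abs]
    have e : A 0 (q, 0) * U 0 (q, 0) + A 1 (q, 0) * U 1 (q, 0) -
        (A 0 (q, 0) * W 0 (q, 0) + A 1 (q, 0) * W 1 (q, 0)) =
        A 0 (q, 0) * (U 0 (q, 0) - W 0 (q, 0)) + A 1 (q, 0) * (U 1 (q, 0) - W 1 (q, 0)) := by ring
    rw [e]
    refine (abs_add_le _ _).trans ?_
    rw [abs_mul, abs_mul]
    have k0 := mul_le_mul_of_nonneg_left h0 (abs_nonneg (A 0 (q, 0)))
    have k1 := mul_le_mul_of_nonneg_left h1 (abs_nonneg (A 1 (q, 0)))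
    linarith

/-! ### No return -/

theorem noReturn_of_ne {α β : ℝ} (hβ : 3 < β) {v₀ : E → E} (hv : IsVelocity α β v₀)
    (hne : ∃ x : E, x 2 = 0 ∧ v₀ x ≠ 0) {T : ℝ} (hT : 0 < T) :
    ∃ r > 0, NoReturn α β T r v₀ := by
  have S0 := hv.snap hβ
  obtain ⟨y0, y1, c, hc, hY0⟩ := exists_test hβ hv hne
  -- constants
  obtain ⟨K, hK0, hK⟩ : ∃ K, 0 ≤ K ∧ ∀ p ∈ H3, ∀ i j, |ph2 y0 y1 c i j p| ≤ K := by
    have h := fun i j => (dec_ph2 (y0 := y0) (y1 := y1) hc i j)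
    choose h1 C hC hb using h
    refine ⟨∑ i, ∑ j, C i j, Finset.sum_nonneg fun i _ => Finset.sum_nonneg fun j _ => hC i j,
      fun p hp i j => ?_⟩
    have h2 := hb i j p hp
    have h3 : (1 + ‖p‖) ^ (-(5:ℝ)) ≤ 1 := w_le_one (by norm_num) p
    have h4 : C i j ≤ ∑ j, C i j :=
      Finset.single_le_sum (f := fun j => C i j) (fun j _ => hC i j) (Finset.mem_univ j)
    have h5 : ∑ j, C i j ≤ ∑ i, ∑ j, C i j :=
      Finset.single_le_sum (f := fun i => ∑ j, C i j)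
        (fun i _ => Finset.sum_nonneg fun j _ => hC i j) (Finset.mem_univ i)
    calc |ph2 y0 y1 c i j p| ≤ C i j * (1 + ‖p‖) ^ (-(5:ℝ)) := h2
      _ ≤ C i j * 1 := mul_le_mul_of_nonneg_left h3 (hC i j)
      _ ≤ _ := by linarith
  obtain ⟨G, hG0, hG⟩ : ∃ G, 0 ≤ G ∧ ∀ q : ℝ × ℝ, |ph1 y0 y1 c 2 (q, 0)| ≤ G := by
    obtain ⟨-, C, hC, hb⟩ := dec_ph1 (y0 := y0) (y1 := y1) hc 2
    refine ⟨C, hC, fun q => ?_⟩
    have h3 : (1 + ‖((q, 0) : P3)‖) ^ (-(4:ℝ)) ≤ 1 := w_le_one (by norm_num) _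
    have := hb _ (zero_mem_H3 q)
    nlinarith
  obtain ⟨N2, hN2, hN⟩ : ∃ N2, 0 < N2 ∧
      ∫ q : ℝ × ℝ, (ff y0 y1 c 0 (q, 0) ^ 2 + ff y0 y1 c 1 (q, 0) ^ 2) ≤ N2 := by
    refine ⟨(∫ q : ℝ × ℝ, (ff y0 y1 c 0 (q, 0) ^ 2 + ff y0 y1 c 1 (q, 0) ^ 2)) + 1, ?_, by linarith⟩
    have : 0 ≤ ∫ q : ℝ × ℝ, (ff y0 y1 c 0 (q, 0) ^ 2 + ff y0 y1 c 1 (q, 0) ^ 2) :=
      integral_nonneg fun q => by positivity
    linarith
  obtain ⟨ε, hε, hε2⟩ : ∃ ε : ℝ, |ε| ≤ 1 ∧ 0 < ε * Ym y0 y1 c (cU v₀) := by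
    rcases lt_or_gt_of_ne hY0 with h | h
    · exact ⟨-1, by simp, by linarith⟩
    · exact ⟨1, by simp, by linarith⟩
  obtain ⟨Y, hYdef⟩ : ∃ Y, Y = ε * Ym y0 y1 c (cU v₀) / 2 := ⟨_, rfl⟩
  have hY : 0 < Y := by rw [hYdef]; linarith
  obtain ⟨cL, hcL0, -, hcL⟩ := lin_diff hβ (A := co) (U := cU v₀) (W := cU v₀)
    (fun i => by
      fin_cases i
      · exact Dec.co1
      · exact Dec.co2
      · exact Dec.height) S0.decU S0.decU
  obtain ⟨cY, hcY0, -, hcY⟩ := lin_diff hβ (A := ff y0 y1 c) (U := cU v₀) (W := cU v₀)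
    (fun i => (dec_ff hc i).mono (by norm_num)) S0.decU S0.decU
  obtain ⟨C0, hC0⟩ := hv.2.1
  have hC0b : ∀ i, ∀ p ∈ H3, |cU v₀ i p| ≤ |C0| * (1 + ‖p‖) ^ (-β) := by
    intro i p hp
    have h := (hC0 i (e3 p) (e3_mem hp)).1
    rw [norm_e3] at h
    simp only [Pi.zero_apply, sub_zero] at h
    exact h.trans (mul_le_mul_of_nonneg_right (le_abs_self _) (w_nonneg _ _))
  obtain ⟨e0, he0⟩ : ∃ e0, e0 = ∫ p in M3, 3 * (|C0| + 1) ^ 2 * (1 + ‖p‖) ^ (-β) := ⟨_, rfl⟩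
  have he0' : 0 ≤ e0 := by
    rw [he0]
    exact integral_nonneg fun p => by
      have := w_nonneg (-β) p
      positivity
  obtain ⟨τ, hτdef⟩ : ∃ τ, τ = min T (Y / 4 / (3 * K * e0 + 1)) := ⟨_, rfl⟩
  have hKe : 0 ≤ 3 * K * e0 := by positivity
  have hτ : 0 < τ := by rw [hτdef]; exact lt_min hT (by positivity)
  have hτ1 : 3 * K * e0 * τ ≤ Y / 4 := by
    have h1 : τ ≤ Y / 4 / (3 * K * e0 + 1) := by rw [hτdef]; exact min_le_right _ _
    rw [le_div_iff₀ (by positivity)] at h1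
    nlinarith
  obtain ⟨δ, hδdef⟩ : ∃ δ, δ = τ * ((Y / 2) ^ 2 / N2) := ⟨_, rfl⟩
  have hδ : 0 < δ := by rw [hδdef]; positivity
  obtain ⟨r, hrdef⟩ : ∃ r, r = min 1 (min (Y / (cY + 1)) (min (Y / 4 / (G * cL + 1))
    (δ / (2 * (cL + 1))))) := ⟨_, rfl⟩
  have hr : 0 < r := by
    rw [hrdef]
    refine lt_min one_pos (lt_min ?_ (lt_min ?_ ?_)) <;> positivity
  have hr1 : r ≤ 1 := by rw [hrdef]; exact min_le_left _ _
  have hr2 : r * cY ≤ Y := by
    have h1 : r ≤ Y / (cY + 1) := by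
      rw [hrdef]; exact (min_le_right _ _).trans (min_le_left _ _)
    rw [le_div_iff₀ (by positivity)] at h1
    nlinarith
  have hr3 : G * (r * cL) ≤ Y / 4 := by
    have h1 : r ≤ Y / 4 / (G * cL + 1) := by
      rw [hrdef]
      exact (min_le_right _ _).trans ((min_le_right _ _).trans (min_le_left _ _))
    rw [le_div_iff₀ (by positivity)] at h1
    nlinarith
  have hr4 : 2 * (r * cL) < δ := by
    have h1 : r ≤ δ / (2 * (cL + 1)) := by
      rw [hrdef]
      exact (min_le_right _ _).trans ((min_le_right _ _).trans (min_le_right _ _))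
    rw [le_div_iff₀ (by positivity)] at h1
    nlinarith
  refine ⟨r, hr, ?_⟩
  intro t ht u hu hu0 hut
  have ht0 : 0 < t := hT.trans_le ht
  obtain ⟨TT, S⟩ := hu.sol hβ ht0
  have close' : ∀ s ∈ Icc 0 t, Close α β r v₀ (u s) → ∀ i, ∀ p ∈ H3,
      |cU v₀ i p - cU (u s) i p| ≤ r * (1 + ‖p‖) ^ (-β) := by
    intro s _ hcl i p hp
    have h := (hcl i (e3 p) (e3_mem hp)).1
    rw [norm_e3] at h
    exact h
  have m0 : (0:ℝ) ∈ Icc 0 t := ⟨le_rfl, ht0.le⟩
  have mt : t ∈ Icc 0 t := ⟨ht0.le, le_rfl⟩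
  have hL : ∀ s ∈ Icc 0 t, Close α β r v₀ (u s) → |Lm (cU v₀) - Lm (cU (u s))| ≤ r * cL := by
    intro s hs hcl
    obtain ⟨c', -, h, hc'⟩ := lin_diff hβ (A := co) (U := cU v₀) (W := cU (u s))
      (fun i => by
        fin_cases i
        · exact Dec.co1
        · exact Dec.co2
        · exact Dec.height) S0.decU (S.snap s hs).decU
    have := h r (close' s hs hcl)
    rw [hc', ← hcL] at this
    exact this
  have hYu : |Ym y0 y1 c (cU v₀) - Ym y0 y1 c (cU (u 0))| ≤ r * cY := by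
    obtain ⟨c', -, h, hc'⟩ := lin_diff hβ (A := ff y0 y1 c) (U := cU v₀) (W := cU (u 0))
      (fun i => (dec_ff hc i).mono (by norm_num)) S0.decU (S.snap 0 m0).decU
    have := h r (close' 0 m0 hu0)
    rw [hc', ← hcY] at this
    exact this
  have hy : Y ≤ ε * Ym y0 y1 c (cU (u 0)) := by
    have h1 : |ε * (Ym y0 y1 c (cU v₀) - Ym y0 y1 c (cU (u 0)))| ≤ r * cY := by
      rw [abs_mul]
      calc |ε| * _ ≤ 1 * |Ym y0 y1 c (cU v₀) - Ym y0 y1 c (cU (u 0))| :=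
            mul_le_mul_of_nonneg_right hε (abs_nonneg _)
        _ ≤ _ := by rw [one_mul]; exact hYu
    have h2 := (abs_le.1 h1).2
    have h3 : ε * Ym y0 y1 c (cU v₀) = 2 * Y := by rw [hYdef]; ring
    linarith
  have he : Em (cU (u 0)) ≤ e0 := by
    have hS := S.snap 0 m0
    rw [he0]
    unfold Em
    refine setIntegral_mono_on ?_ (((dec_w β).const_mul _).integrableOn hβ) measurableSet_M3
      fun p hp => ?_
    · have := (Dec.sum (γ := β) fun i => ((hS.decU i).mul (hS.decU i)).mono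
        (by linarith)).integrableOn hβ
      refine this.congr_fun (fun p _ => ?_) measurableSet_M3
      simp only [Fin.sum_univ_three]
      ring
    · have hw := w_nonneg (-β) p
      have hw1 : (1 + ‖p‖) ^ (-β) ≤ 1 := w_le_one (by linarith) p
      have h : ∀ i, cU (u 0) i p ^ 2 ≤ (|C0| + 1) ^ 2 * (1 + ‖p‖) ^ (-β) := by
        intro i
        have h1 := close' 0 m0 hu0 i p (M3_subset hp)
        have h2 := hC0b i p (M3_subset hp)
        have h3 : |cU (u 0) i p| ≤ (|C0| + 1) * (1 + ‖p‖) ^ (-β) := by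
          have h4 : cU (u 0) i p = cU v₀ i p - (cU v₀ i p - cU (u 0) i p) := by ring
          rw [h4]
          refine (abs_sub _ _).trans ?_
          have h5 : r * (1 + ‖p‖) ^ (-β) ≤ 1 * (1 + ‖p‖) ^ (-β) :=
            mul_le_mul_of_nonneg_right hr1 hw
          linarith
        calc cU (u 0) i p ^ 2 = |cU (u 0) i p| ^ 2 := (sq_abs _).symm
          _ ≤ ((|C0| + 1) * (1 + ‖p‖) ^ (-β)) ^ 2 := by gcongr
          _ = (|C0| + 1) ^ 2 * ((1 + ‖p‖) ^ (-β) * (1 + ‖p‖) ^ (-β)) := by ring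
          _ ≤ (|C0| + 1) ^ 2 * ((1 + ‖p‖) ^ (-β) * 1) := by gcongr
          _ = _ := by ring
      linarith [h 0, h 1, h 2]
  have l0 := hL 0 m0 hu0
  have lt := hL t mt hut
  have hdiff : Lm (cU (u t)) - Lm (cU (u 0)) ≤ 2 * (r * cL) := by
    have a1 := (abs_le.1 l0).2
    have a2 := (abs_le.1 lt).1
    linarith
  have h2 : G * (1/2) * (Lm (cU (u t)) - Lm (cU (u 0))) ≤ Y / 4 := by
    have : G * (1/2) * (Lm (cU (u t)) - Lm (cU (u 0))) ≤ G * (1/2) * (2 * (r * cL)) := by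
      gcongr
    linarith
  have hτt : τ ≤ t := by
    refine le_trans ?_ ht
    rw [hτdef]; exact min_le_left _ _
  have := S.growth hc hK0 hG0 hK hG hε hN hN2 hY hy he hτ hτt hτ1 h2
  rw [← hδdef] at this
  linarith

/-! ### Existence and density -/

lemma IsVelocity.add_smul {α β : ℝ} {v w : E → E} (hv : IsVelocity α β v) (hw : IsVelocity α β w)
    (k : ℝ) : IsVelocity α β (fun x => v x + k • w x) ∧
      ∀ i j, ∀ x ∈ Mbar, pd j (fun z => (v z + k • w z) i) x =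
        pd j (fun z => v z i) x + k * pd j (fun z => w z i) x := by
  obtain ⟨h1, ⟨C, hC⟩, hd, ht, hc⟩ := hv
  obtain ⟨h1', ⟨C', hC'⟩, hd', ht', hc'⟩ := hw
  have hpd : ∀ i j, ∀ x ∈ Mbar, pd j (fun z => (v z + k • w z) i) x =
        pd j (fun z => v z i) x + k * pd j (fun z => w z i) x := by
    intro i j x hx
    have a1 := ((h1 i).differentiableOn one_ne_zero) x hx
    have a2 := ((h1' i).differentiableOn one_ne_zero) x hx
    have e := (a1.hasFDerivWithinAt.add (a2.hasFDerivWithinAt.const_mul k)).fderivWithin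
      (uniqueDiffOn_Mbar x hx)
    unfold pd
    have e2 : (fun z => (v z + k • w z) i) = (fun z => v z i) + fun z => k * w z i := by
      funext z; simp
    rw [e2, e]
    simp
  refine ⟨⟨?_, ⟨C + |k| * C', ?_⟩, ?_, ?_, ?_⟩, hpd⟩
  · intro i
    have := (h1 i).add ((h1' i).const_smul k)
    exact this
  · intro i x hx
    have a1 := hC i x hx
    have a2 := hC' i x hx
    simp only [Pi.zero_apply, sub_zero] at a1 a2 ⊢
    refine ⟨?_, fun j => ⟨?_, fun y hy hxy => ?_⟩⟩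
    · change |v x i + k * w x i| ≤ _
      refine (abs_add_le _ _).trans ?_
      rw [abs_mul, add_mul, mul_assoc]
      exact add_le_add a1.1 (mul_le_mul_of_nonneg_left a2.1 (abs_nonneg _))
    · rw [hpd i j x hx, pd_zero', sub_zero]
      have b1 := (a1.2 j).1
      have b2 := (a2.2 j).1
      rw [pd_zero', sub_zero] at b1 b2
      refine (abs_add_le _ _).trans ?_
      rw [abs_mul, add_mul, mul_assoc]
      exact add_le_add b1 (mul_le_mul_of_nonneg_left b2 (abs_nonneg _))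
    · rw [hpd i j x hx, hpd i j y hy, pd_zero', pd_zero', sub_zero, sub_zero]
      have b1 := (a1.2 j).2 y hy hxy
      have b2 := (a2.2 j).2 y hy hxy
      rw [pd_zero', pd_zero', sub_zero, sub_zero] at b1 b2
      have e : pd j (fun z => v z i) x + k * pd j (fun z => w z i) x -
          (pd j (fun z => v z i) y + k * pd j (fun z => w z i) y) =
          (pd j (fun z => v z i) x - pd j (fun z => v z i) y) +
            k * (pd j (fun z => w z i) x - pd j (fun z => w z i) y) := by ring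
      rw [e]
      refine (abs_add_le _ _).trans ?_
      rw [abs_mul]
      have b3 := mul_le_mul_of_nonneg_left b2 (abs_nonneg k)
      calc _ ≤ C * (1 + ‖x‖) ^ (-β) * ‖x - y‖ ^ α + |k| * (C' * (1 + ‖x‖) ^ (-β) * ‖x - y‖ ^ α) :=
            add_le_add b1 b3
        _ = _ := by ring
  · intro x hx
    have b1 := hd x hx
    have b2 := hd' x hx
    simp only [Fin.sum_univ_three] at b1 b2 ⊢
    rw [hpd 0 0 x hx, hpd 1 1 x hx, hpd 2 2 x hx]
    have : pd 0 (fun z => v z 0) x + k * pd 0 (fun z => w z 0) x +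
        (pd 1 (fun z => v z 1) x + k * pd 1 (fun z => w z 1) x) +
        (pd 2 (fun z => v z 2) x + k * pd 2 (fun z => w z 2) x) =
      (pd 0 (fun z => v z 0) x + pd 1 (fun z => v z 1) x + pd 2 (fun z => v z 2) x) +
        k * (pd 0 (fun z => w z 0) x + pd 1 (fun z => w z 1) x + pd 2 (fun z => w z 2) x) := by ring
    rw [this, b1, b2, mul_zero, add_zero]
  · intro x hx hx2
    change v x 2 + k * w x 2 = 0
    rw [ht x hx hx2, ht' x hx hx2, mul_zero, add_zero]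
  · intro x hx hx2
    rw [hpd 1 0 x hx, hpd 0 1 x hx, hc x hx hx2, hc' x hx hx2]

theorem dense_ne {α β : ℝ} (hα0 : 0 < α) (hα1 : α < 1) (hβ : 3 < β) {v : E → E}
    (hv : IsVelocity α β v) {r : ℝ} (hr : 0 < r) :
    ∃ v₀ : E → E, IsVelocity α β v₀ ∧ Close α β r v v₀ ∧ ∃ x : E, x 2 = 0 ∧ v₀ x ≠ 0 := by
  by_cases hne : ∃ x : E, x 2 = 0 ∧ v x ≠ 0
  · refine ⟨v, hv, ?_, hne⟩
    intro i x hx
    have hw := w_nonneg (-β) x
    refine ⟨by rw [sub_self, abs_zero]; positivity, fun j => ⟨by rw [sub_self, abs_zero]; positivity,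
      fun y _ _ => ?_⟩⟩
    rw [sub_self, sub_self, sub_self, abs_zero]
    have := Real.rpow_nonneg (norm_nonneg (x - y)) α
    positivity
  · push Not at hne
    obtain ⟨w, hw, x, hx2, hwx⟩ := Pool.Agent.Helper88.HalfEuler.pf_Ex α β hα0 hα1 hβ
    obtain ⟨C, hC⟩ := hw.2.1
    set k : ℝ := r / (|C| + 1) with hk
    have hk0 : 0 < k := by rw [hk]; positivity
    have hkC : k * |C| ≤ r := by
      rw [hk, div_mul_eq_mul_div, div_le_iff₀ (by positivity)]
      nlinarith [abs_nonneg C]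
    obtain ⟨h1, h2⟩ := hv.add_smul hw k
    refine ⟨_, h1, ?_, x, hx2, ?_⟩
    · intro i y hy
      have a := hC i y hy
      have hwt := w_nonneg (-β) y
      have hrw : k * (C * (1 + ‖y‖) ^ (-β)) ≤ r * (1 + ‖y‖) ^ (-β) := by
        have : C ≤ |C| := le_abs_self C
        calc k * (C * (1 + ‖y‖) ^ (-β)) ≤ k * (|C| * (1 + ‖y‖) ^ (-β)) := by gcongr
          _ = (k * |C|) * (1 + ‖y‖) ^ (-β) := by ring
          _ ≤ _ := by gcongr
      simp only [Pi.zero_apply, sub_zero] at a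
      refine ⟨?_, fun j => ⟨?_, fun z hz hyz => ?_⟩⟩
      · have e : v y i - (v y + k • w y) i = -(k * w y i) := by simp
        rw [e, abs_neg, abs_mul, abs_of_pos hk0]
        exact (mul_le_mul_of_nonneg_left a.1 hk0.le).trans hrw
      · rw [h2 i j y hy]
        have b := (a.2 j).1
        rw [pd_zero', sub_zero] at b
        have e : pd j (fun z => v z i) y - (pd j (fun z => v z i) y + k * pd j (fun z => w z i) y) =
          -(k * pd j (fun z => w z i) y) := by ring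
        rw [e, abs_neg, abs_mul, abs_of_pos hk0]
        exact (mul_le_mul_of_nonneg_left b hk0.le).trans hrw
      · rw [h2 i j y hy, h2 i j z hz]
        have b := (a.2 j).2 z hz hyz
        rw [pd_zero', pd_zero', sub_zero, sub_zero] at b
        have e : pd j (fun z => v z i) y - (pd j (fun z => v z i) y + k * pd j (fun z => w z i) y) -
          (pd j (fun z => v z i) z - (pd j (fun z => v z i) z + k * pd j (fun z => w z i) z)) =
          -(k * (pd j (fun z => w z i) y - pd j (fun z => w z i) z)) := by ring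
        rw [e, abs_neg, abs_mul, abs_of_pos hk0]
        have hpow := Real.rpow_nonneg (norm_nonneg (y - z)) α
        calc k * |pd j (fun z => w z i) y - pd j (fun z => w z i) z| ≤
            k * (C * (1 + ‖y‖) ^ (-β) * ‖y - z‖ ^ α) := mul_le_mul_of_nonneg_left b hk0.le
          _ = (k * (C * (1 + ‖y‖) ^ (-β))) * ‖y - z‖ ^ α := by ring
          _ ≤ _ := mul_le_mul_of_nonneg_right hrw hpow
    · intro h0
      have h3 : (v x + k • w x) 0 = 0 := by rw [h0]; rfl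
      have h4 : v x 0 = 0 := by rw [hne x hx2]; rfl
      have h5 : (v x + k • w x) 0 = v x 0 + k * w x 0 := rfl
      rw [h5, h4, zero_add] at h3
      rcases mul_eq_zero.1 h3 with h | h
      · exact hk0.ne' h
      · exact hwx h

end Pool.Agent.Helper48.HalfEuler
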