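import Pool.Agent.Helper48.HE.Kernel

open Set MeasureTheory Filter Topology

namespace Pool.Agent.Helper48.HalfEuler

/-- A velocity field of the phase space, in coordinates. -/
structure Snap (β : ℝ) (U : Fin 3 → P3 → ℝ) (DU : Fin 3 → Fin 3 → P3 → ℝ) : Prop where
  hβ : 3 < β
  decU : ∀ i, Dec β (U i)
  decDU : ∀ i j, Dec β (DU i j)
  derU : ∀ i j, HasD j (U i) (DU i j)
  div : ∀ p ∈ H3, ∑ i, DU i i p = 0
  tan : ∀ q, U 2 (q, 0) = 0
  curl : ∀ q, DU 1 0 (q, 0) = DU 0 1 (q, 0)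

/-- A velocity field with its pressure and its time derivative `T`, in coordinates. -/
structure Dyn (β : ℝ) (U : Fin 3 → P3 → ℝ) (DU : Fin 3 → Fin 3 → P3 → ℝ) (P : P3 → ℝ)
    (DP T : Fin 3 → P3 → ℝ) : Prop extends Snap β U DU where
  decP : Dec (β - 1) P
  decDP : ∀ i, Dec β (DP i)
  derP : ∀ i, HasD i P (DP i)
  eqn : ∀ i, ∀ p ∈ H3, T i p = -(∑ j, U j p * DU i j p) - DP i p

lemma zero_mem_H3 (q : ℝ × ℝ) : (q, (0:ℝ)) ∈ H3 := le_refl (0:ℝ)

section
variable {β : ℝ} {U : Fin 3 → P3 → ℝ} {DU : Fin 3 → Fin 3 → P3 → ℝ}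

/-- Two-dimensional divergence theorem on the wall. -/
lemma int2_D {γ δ : ℝ} {F F' : P3 → ℝ} {j : Fin 3} (hj : j ≠ 2) (hF : Dec γ F) (hγ : 0 < γ)
    (hF' : Dec δ F') (hδ : 2 < δ) (h : HasD j F F') : ∫ q, F' (q, 0) = 0 := by
  fin_cases j
  · refine int2_dx (hF.slice hγ.le le_rfl) hγ (hF'.slice (by linarith) le_rfl) hδ fun a b => ?_
    have := h ((a, b), 0) (zero_mem_H3 _) (by simp)
    simpa [ln, co] using this
  · refine int2_dy (hF.slice hγ.le le_rfl) hγ (hF'.slice (by linarith) le_rfl) hδ fun a b => ?_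
    have := h ((a, b), 0) (zero_mem_H3 _) (by simp)
    simpa [ln, co] using this
  · simp at hj

/-- Integration against a gradient. -/
lemma Snap.int_grad (S : Snap β U DU) {F : P3 → ℝ} {DF : Fin 3 → P3 → ℝ} (hF : Dec 0 F)
    (hDF : ∀ j, Dec 0 (DF j)) (h : ∀ j, HasD j F (DF j)) :
    ∫ p in M3, ∑ j, U j p * DF j p = 0 := by
  have hβ := S.hβ
  have e := div_thm (γ := β) (δ := β) (G := fun j p => U j p * F p)
    (G' := fun j p => DU j j p * F p + U j p * DF j p)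
    (fun j => ((S.decU j).mul hF).mono (by linarith)) (by linarith)
    (fun j => (((S.decDU j j).mul hF).mono (by linarith)).add
      (((S.decU j).mul (hDF j)).mono (by linarith))) hβ
    (fun j => (S.derU j j).mul (h j))
  have e2 : ∫ q, U 2 (q, 0) * F (q, 0) = 0 := by simp [S.tan]
  rw [e2, neg_zero] at e
  rw [← e]
  refine setIntegral_congr_fun measurableSet_M3 fun p hp => ?_
  have hd := S.div p (M3_subset hp)
  change ∑ j, U j p * DF j p = ∑ j, (DU j j p * F p + U j p * DF j p)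
  rw [Finset.sum_add_distrib, ← Finset.sum_mul, hd]
  ring

lemma Dec.shift {γ : ℝ} {F : P3 → ℝ} (hF : Dec γ F) (hγ : 0 ≤ γ) {c : ℝ} (hc : 0 ≤ c) :
    Dec γ (fun p => F (p.1, p.2 + c)) := by
  obtain ⟨h, C, hC, hb⟩ := hF
  refine ⟨?_, C, hC, fun p hp => ?_⟩
  · refine h.comp (by fun_prop) (fun p (hp : 0 ≤ p.2) => ?_)
    change 0 ≤ p.2 + c
    linarith
  · have hp' : 0 ≤ p.2 := hp
    refine (hb (p.1, p.2 + c) (by change 0 ≤ p.2 + c; linarith)).trans ?_
    refine mul_le_mul_of_nonneg_left ?_ hC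
    refine Real.rpow_le_rpow_of_nonpos (w_pos p) ?_ (by linarith)
    have e1 : ‖p‖ ≤ ‖((p.1, p.2 + c) : P3)‖ := by
      rw [Prod.norm_def, Prod.norm_def]
      refine max_le_max le_rfl ?_
      simp only [Real.norm_eq_abs]
      rw [abs_of_nonneg hp', abs_of_nonneg (by linarith)]
      linarith
    linarith

lemma HasD.shift {j : Fin 3} {F F' : P3 → ℝ} (h : HasD j F F') {c : ℝ} (hc : 0 ≤ c) :
    HasD j (fun p => F (p.1, p.2 + c)) (fun p => F' (p.1, p.2 + c)) := by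
  intro p hp hj
  have hp' : 0 ≤ p.2 := hp
  have h1 := h (p.1, p.2 + c) (by change 0 ≤ p.2 + c; linarith)
    (fun hj2 => by
      have : 0 < p.2 := hj hj2
      change 0 < p.2 + c; linarith)
  fin_cases j
  · simpa [ln, co] using h1
  · simpa [ln, co] using h1
  · simp only [co, ln] at h1 ⊢
    exact h1.comp_add_const (p.2) c

/-- The flux through every horizontal plane vanishes. -/
lemma Snap.flux (S : Snap β U DU) {c : ℝ} (hc : 0 ≤ c) : ∫ q, U 2 (q, c) = 0 := by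
  have hβ := S.hβ
  have e := div_thm (γ := β) (δ := β) (G := fun j p => U j (p.1, p.2 + c))
    (G' := fun j p => DU j j (p.1, p.2 + c))
    (fun j => (S.decU j).shift (by linarith) hc) (by linarith)
    (fun j => (S.decDU j j).shift (by linarith) hc) hβ
    (fun j => (S.derU j j).shift hc)
  have e2 : ∫ p in M3, ∑ j, DU j j (p.1, p.2 + c) = 0 := by
    refine setIntegral_eq_zero_of_forall_eq_zero fun p hp => ?_
    have hp' : 0 < p.2 := hp
    exact S.div _ (by change 0 ≤ p.2 + c; linarith)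
  rw [e2] at e
  simp only [zero_add] at e
  linarith

lemma Snap.int_U2 (S : Snap β U DU) : ∫ p in M3, U 2 p = 0 := by
  rw [int3_eq (S.decU 2) S.hβ]
  exact setIntegral_eq_zero_of_forall_eq_zero fun c hc => S.flux (le_of_lt hc)

end

section
variable {β : ℝ} {U : Fin 3 → P3 → ℝ} {DU : Fin 3 → Fin 3 → P3 → ℝ} {P : P3 → ℝ}
  {DP T : Fin 3 → P3 → ℝ}

lemma Dyn.decUDU (D : Dyn β U DU P DP T) (i j k : Fin 3) : Dec β (fun p => U k p * DU i j p) := by
  have hβ := D.hβ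
  exact ((D.decU k).mul (D.decDU i j)).mono (by linarith)

lemma Dyn.decT (D : Dyn β U DU P DP T) (i : Fin 3) : Dec β (T i) := by
  refine Dec.congr ?_ (D.eqn i)
  exact (Dec.sum fun j => D.decUDU i j j).neg.sub (D.decDP i)

/-- Vanishing of the total pressure on the wall. -/
lemma Dyn.pressure (D : Dyn β U DU P DP T) (hT : ∫ p in M3, T 2 p = 0) :
    ∫ q, P (q, 0) = 0 := by
  have hβ := D.hβ
  have e1 := int3_D 2 D.decP (by linarith) (D.decDP 2) hβ (D.derP 2)
  have e2 := D.toSnap.int_grad (F := U 2) (DF := fun j => DU 2 j) ((D.decU 2).mono (by linarith))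
    (fun j => (D.decDU 2 j).mono (by linarith)) (fun j => D.derU 2 j)
  have e3 : ∫ p in M3, DP 2 p = ∫ p in M3, (-(T 2 p) - ∑ j, U j p * DU 2 j p) := by
    refine setIntegral_congr_fun measurableSet_M3 fun p hp => ?_
    have := D.eqn 2 p (M3_subset hp)
    linarith
  rw [integral_sub ((D.decT 2).neg.integrableOn hβ)
    ((Dec.sum fun j => D.decUDU 2 j j).integrableOn hβ), e2, integral_neg, hT] at e3
  rw [e3] at e1
  simp at e1
  exact e1

/-- the Bernoulli function -/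
lemma Dyn.decB (D : Dyn β U DU P DP T) :
    Dec (β - 1) (fun p => (U 0 p * U 0 p + U 1 p * U 1 p) * (1 / 2) + P p) := by
  have hβ := D.hβ
  refine Dec.add ?_ D.decP
  refine (((((D.decU 0).mul (D.decU 0)).add ((D.decU 1).mul (D.decU 1))).mul
    (Dec.const (1/2))).mono (by linarith))

lemma Dyn.decDB (D : Dyn β U DU P DP T) (j : Fin 3) :
    Dec β (fun p => U 0 p * DU 0 j p + U 1 p * DU 1 j p + DP j p) :=
  ((D.decUDU 0 j 0).add (D.decUDU 1 j 1)).add (D.decDP j)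

lemma Dyn.derB (D : Dyn β U DU P DP T) (j : Fin 3) :
    HasD j (fun p => (U 0 p * U 0 p + U 1 p * U 1 p) * (1 / 2) + P p)
      (fun p => U 0 p * DU 0 j p + U 1 p * DU 1 j p + DP j p) := by
  refine (((((D.derU 0 j).mul (D.derU 0 j)).add ((D.derU 1 j).mul (D.derU 1 j))).mul
    (HasD.const (1/2))).add (D.derP j)).cast rfl fun p _ => ?_
  ring

lemma Dyn.wallT (D : Dyn β U DU P DP T) (q : ℝ × ℝ) :
    T 0 (q, 0) = -(U 0 (q, 0) * DU 0 0 (q, 0) + U 1 (q, 0) * DU 1 0 (q, 0) + DP 0 (q, 0)) ∧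
    T 1 (q, 0) = -(U 0 (q, 0) * DU 0 1 (q, 0) + U 1 (q, 0) * DU 1 1 (q, 0) + DP 1 (q, 0)) := by
  have h0 := D.eqn 0 (q, 0) (zero_mem_H3 q)
  have h1 := D.eqn 1 (q, 0) (zero_mem_H3 q)
  rw [Fin.sum_univ_three] at h0 h1
  have ht := D.tan q
  have hc := D.curl q
  rw [ht] at h0 h1
  constructor
  · rw [h0, hc]; ring
  · rw [h1, ← hc]; ring

/-- The wall momentum identity. -/
lemma Dyn.moment (D : Dyn β U DU P DP T) (hP : ∫ q, P (q, 0) = 0) :
    ∫ q : ℝ × ℝ, (q.1 * T 0 (q, 0) + q.2 * T 1 (q, 0)) =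
      ∫ q : ℝ × ℝ, (U 0 (q, 0) ^ 2 + U 1 (q, 0) ^ 2) := by
  have hβ := D.hβ
  have key : ∀ j : Fin 3, j ≠ 2 → ∫ q : ℝ × ℝ, (((U 0 (q, 0) * U 0 (q, 0) +
      U 1 (q, 0) * U 1 (q, 0)) * (1 / 2) + P (q, 0)) + co j (q, 0) *
        (U 0 (q, 0) * DU 0 j (q, 0) + U 1 (q, 0) * DU 1 j (q, 0) + DP j (q, 0))) = 0 := by
    intro j hj
    have hco : Dec (-1) (co j) := by
      fin_cases j
      · exact Dec.co1
      · exact Dec.co2
      · exact Dec.height
    have h1 : HasD j _ _ := (hasD_co j j).mul (D.derB j)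
    have h2 := int2_D (γ := β - 2) (δ := β - 1) hj
      ((hco.mul D.decB).mono (by linarith)) (by linarith) ?_ (by linarith) h1
    · simpa using h2
    · refine Dec.add ?_ ?_
      · simpa using D.decB
      · exact (hco.mul (D.decDB j)).mono (by linarith)
  have k0 := key 0 (by decide)
  have k1 := key 1 (by decide)
  have iB : Integrable (fun q : ℝ × ℝ => (U 0 (q, 0) * U 0 (q, 0) +
      U 1 (q, 0) * U 1 (q, 0)) * (1 / 2) + P (q, 0)) :=
    (D.decB.slice (by linarith) le_rfl).integrable (by linarith)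
  have i0 : Integrable (fun q : ℝ × ℝ => co 0 (q, 0) *
        (U 0 (q, 0) * DU 0 0 (q, 0) + U 1 (q, 0) * DU 1 0 (q, 0) + DP 0 (q, 0))) := by
    refine (((Dec.co1.mul (D.decDB 0)).mono (δ := β - 1) (by linarith)).slice
      (by linarith) le_rfl).integrable (by linarith)
  have i1 : Integrable (fun q : ℝ × ℝ => co 1 (q, 0) *
        (U 0 (q, 0) * DU 0 1 (q, 0) + U 1 (q, 0) * DU 1 1 (q, 0) + DP 1 (q, 0))) := by
    refine (((Dec.co2.mul (D.decDB 1)).mono (δ := β - 1) (by linarith)).slice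
      (by linarith) le_rfl).integrable (by linarith)
  have iP : Integrable (fun q : ℝ × ℝ => P (q, 0)) :=
    (D.decP.slice (by linarith) le_rfl).integrable (by linarith)
  have iU : Integrable (fun q : ℝ × ℝ => (U 0 (q, 0) ^ 2 + U 1 (q, 0) ^ 2)) := by
    have := (((((D.decU 0).mul (D.decU 0)).add ((D.decU 1).mul (D.decU 1))).slice
      (by linarith) le_rfl).integrable (by linarith))
    simpa [pow_two] using this
  rw [integral_add iB i0] at k0
  rw [integral_add iB i1] at k1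
  have eB : ∫ q : ℝ × ℝ, ((U 0 (q, 0) * U 0 (q, 0) +
      U 1 (q, 0) * U 1 (q, 0)) * (1 / 2) + P (q, 0)) =
      (1/2) * ∫ q : ℝ × ℝ, (U 0 (q, 0) ^ 2 + U 1 (q, 0) ^ 2) := by
    have h1 : ∫ q : ℝ × ℝ, ((U 0 (q, 0) * U 0 (q, 0) +
        U 1 (q, 0) * U 1 (q, 0)) * (1 / 2) + P (q, 0)) =
        ∫ q : ℝ × ℝ, ((1/2) * (U 0 (q, 0) ^ 2 + U 1 (q, 0) ^ 2) + P (q, 0)) := by
      congr 1
      funext q
      ring
    rw [h1, integral_add (iU.const_mul _) iP, hP, add_zero, integral_const_mul]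
  rw [eB] at k0 k1
  have e : ∫ q : ℝ × ℝ, (q.1 * T 0 (q, 0) + q.2 * T 1 (q, 0)) =
      ∫ q : ℝ × ℝ, (-(co 0 (q, 0) *
        (U 0 (q, 0) * DU 0 0 (q, 0) + U 1 (q, 0) * DU 1 0 (q, 0) + DP 0 (q, 0)))
        - (co 1 (q, 0) *
        (U 0 (q, 0) * DU 0 1 (q, 0) + U 1 (q, 0) * DU 1 1 (q, 0) + DP 1 (q, 0)))) := by
    congr 1
    funext q
    obtain ⟨h0, h1⟩ := D.wallT q
    rw [h0, h1]
    simp only [co]
    ring
  have e' := integral_sub i0.neg i1
  simp only [Pi.neg_apply] at e'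
  rw [e, e', integral_neg]
  linarith

/-- Energy. -/
lemma Dyn.energy (D : Dyn β U DU P DP T) : ∫ p in M3, ∑ i, U i p * T i p = 0 := by
  have hβ := D.hβ
  have e := D.toSnap.int_grad
    (F := fun p => (∑ i, U i p * U i p) * (1/2) + P p)
    (DF := fun j p => (∑ i, U i p * DU i j p) + DP j p) ?_ ?_ ?_
  · rw [← neg_eq_zero, ← integral_neg, ← e]
    refine setIntegral_congr_fun measurableSet_M3 fun p hp => ?_
    have h0 := D.eqn 0 p (M3_subset hp)
    have h1 := D.eqn 1 p (M3_subset hp)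
    have h2 := D.eqn 2 p (M3_subset hp)
    simp only [Fin.sum_univ_three] at h0 h1 h2 ⊢
    rw [h0, h1, h2]
    ring
  · refine Dec.add ?_ (D.decP.mono (by linarith))
    refine ((Dec.sum fun i => (D.decU i).mul (D.decU i)).mul (Dec.const (1/2))).mono (by linarith)
  · intro j
    exact ((Dec.sum fun i => D.decUDU i j i).add (D.decDP j)).mono (by linarith)
  · intro j
    refine (((HasD.sum fun i => (D.derU i j).mul (D.derU i j)).mul (HasD.const (1/2))).add
      (D.derP j)).cast rfl fun p _ => ?_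
    simp only [Fin.sum_univ_three]
    ring

end

end Pool.Agent.Helper48.HalfEuler
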