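import Pool.Agent.Helper48.HE.Static

open Set MeasureTheory Filter Topology

namespace Pool.Agent.Helper48.HalfEuler

section
variable {β : ℝ} {U : Fin 3 → P3 → ℝ} {DU : Fin 3 → Fin 3 → P3 → ℝ} {P : P3 → ℝ}
  {DP T : Fin 3 → P3 → ℝ} {y0 y1 c : ℝ}

lemma sq_bound (a b d K : ℝ) (m : Fin 3 → Fin 3 → ℝ) (hm : ∀ i j, |m i j| ≤ K) :
    -(3 * K * (a ^ 2 + b ^ 2 + d ^ 2)) ≤
      ∑ k, ∑ i, (![a, b, d] k * (![a, b, d] i * m i k)) := by
  have h : ∀ x y z : ℝ, |z| ≤ K → -(K * (x ^ 2 + y ^ 2) / 2) ≤ x * (y * z) := by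
    intro x y z hz
    have h1 : |x * (y * z)| ≤ K * (x ^ 2 + y ^ 2) / 2 := by
      rw [abs_mul, abs_mul]
      have hx := abs_nonneg x
      have hy := abs_nonneg y
      have h2 : |x| * (|y| * |z|) ≤ |x| * (|y| * K) := by gcongr
      have h3 : |x| * |y| ≤ (x ^ 2 + y ^ 2) / 2 := by
        have := sq_nonneg (|x| - |y|)
        have e1 := sq_abs x
        have e2 := sq_abs y
        nlinarith
      have hK : 0 ≤ K := (abs_nonneg z).trans hz
      nlinarith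
    exact neg_le_of_abs_le h1
  simp only [Fin.sum_univ_three, Matrix.cons_val_zero, Matrix.cons_val_one, Matrix.cons_val_two,
    Matrix.head_cons, Matrix.tail_cons]
  have := h a a _ (hm 0 0)
  have := h a b _ (hm 1 0)
  have := h a d _ (hm 2 0)
  have := h b a _ (hm 0 1)
  have := h b b _ (hm 1 1)
  have := h b d _ (hm 2 1)
  have := h d a _ (hm 0 2)
  have := h d b _ (hm 1 2)
  have := h d d _ (hm 2 2)
  linarith

lemma Dyn.wall_test (D : Dyn β U DU P DP T) (hc : 0 < c) :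
    ∫ q : ℝ × ℝ, (ff y0 y1 c 0 (q, 0) * T 0 (q, 0) + ff y0 y1 c 1 (q, 0) * T 1 (q, 0)) =
      ∫ q : ℝ × ℝ, ((U 0 (q, 0) * U 0 (q, 0) + U 1 (q, 0) * U 1 (q, 0)) * (1 / 2) + P (q, 0)) *
        (- ph1 y0 y1 c 2 (q, 0)) := by
  have hβ := D.hβ
  have key : ∀ j : Fin 3, j ≠ 2 → ∫ q : ℝ × ℝ, (
        (U 0 (q, 0) * DU 0 j (q, 0) + U 1 (q, 0) * DU 1 j (q, 0) + DP j (q, 0)) *
          ff y0 y1 c j (q, 0) + ((U 0 (q, 0) * U 0 (q, 0) +
      U 1 (q, 0) * U 1 (q, 0)) * (1 / 2) + P (q, 0)) * ff1 y0 y1 c j j (q, 0)) = 0 := by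
    intro j hj
    have h1 : HasD j _ _ := (D.derB j).mul (hasD_ff (y0 := y0) (y1 := y1) hc j j)
    exact int2_D (γ := β) (δ := β) hj
      ((D.decB.mul (dec_ff hc j)).mono (by linarith)) (by linarith)
      (Dec.add (((D.decDB j).mul (dec_ff hc j)).mono (by linarith))
        ((D.decB.mul (dec_ff1 hc j j)).mono (by linarith))) (by linarith) h1
  have k0 := key 0 (by decide)
  have k1 := key 1 (by decide)
  have ia : ∀ j, Integrable (fun q : ℝ × ℝ => (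
        (U 0 (q, 0) * DU 0 j (q, 0) + U 1 (q, 0) * DU 1 j (q, 0) + DP j (q, 0)) *
          ff y0 y1 c j (q, 0) + ((U 0 (q, 0) * U 0 (q, 0) +
      U 1 (q, 0) * U 1 (q, 0)) * (1 / 2) + P (q, 0)) * ff1 y0 y1 c j j (q, 0))) := by
    intro j
    refine ((Dec.slice (γ := β) (Dec.add (((D.decDB j).mul (dec_ff hc j)).mono (by linarith))
        ((D.decB.mul (dec_ff1 hc j j)).mono (by linarith))) (by linarith) le_rfl).integrable
          (by linarith))
  have iT : Integrable (fun q : ℝ × ℝ =>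
      (ff y0 y1 c 0 (q, 0) * T 0 (q, 0) + ff y0 y1 c 1 (q, 0) * T 1 (q, 0))) :=
    (Dec.slice (γ := β) ((((dec_ff hc 0).mul (D.decT 0)).mono (by linarith)).add
      (((dec_ff hc 1).mul (D.decT 1)).mono (by linarith))) (by linarith) le_rfl).integrable
        (by linarith)
  have e := integral_add (ia 0) (ia 1)
  rw [k0, k1] at e
  have e3 := integral_add iT ((ia 0).add (ia 1))
  simp only [Pi.add_apply] at e3
  rw [e, add_zero, add_zero] at e3
  rw [← e3]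
  congr 1
  funext q
  obtain ⟨h0, h1⟩ := D.wallT q
  have hf := ff1_wall (y0 := y0) (y1 := y1) hc q
  rw [h0, h1, ← hf]
  ring

/-- The pressure on the wall, tested with the Poisson kernel, is controlled by the energy. -/
lemma Dyn.pressure_test (D : Dyn β U DU P DP T) (hc : 0 < c)
    (hT : ∫ p in M3, ∑ j, T j p * ph1 y0 y1 c j p = 0) {K : ℝ}
    (hK : ∀ p ∈ H3, ∀ i j, |ph2 y0 y1 c i j p| ≤ K) {ε : ℝ} (hε : |ε| ≤ 1) :
    -(3 * K) * ∫ p in M3, (U 0 p ^ 2 + U 1 p ^ 2 + U 2 p ^ 2) ≤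
      ε * ∫ q : ℝ × ℝ, P (q, 0) * (- ph1 y0 y1 c 2 (q, 0)) := by
  have hβ := D.hβ
  have d1 := fun j => dec_ph1 (y0 := y0) (y1 := y1) hc j
  have d2 := fun i j => dec_ph2 (y0 := y0) (y1 := y1) hc i j
  have e1 := div_thm (γ := β) (δ := β) (G := fun j p => P p * ph1 y0 y1 c j p)
    (G' := fun j p => DP j p * ph1 y0 y1 c j p + P p * ph2 y0 y1 c j j p)
    (fun j => (D.decP.mul (d1 j)).mono (by linarith)) (by linarith)
    (fun j => (((D.decDP j).mul (d1 j)).mono (by linarith)).add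
      ((D.decP.mul (d2 j j)).mono (by linarith))) hβ
    (fun j => (D.derP j).mul (hasD_ph1 hc j j))
  have e2 := D.toSnap.int_grad (F := fun p => ∑ i, U i p * ph1 y0 y1 c i p)
    (DF := fun k p => ∑ i, (DU i k p * ph1 y0 y1 c i p + U i p * ph2 y0 y1 c i k p))
    (Dec.sum fun i => ((D.decU i).mul (d1 i)).mono (by linarith))
    (fun k => Dec.sum fun i => (((D.decDU i k).mul (d1 i)).mono (by linarith)).add
      (((D.decU i).mul (d2 i k)).mono (by linarith)))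
    (fun k => HasD.sum fun i => (D.derU i k).mul (hasD_ph1 hc i k))
  have iT : IntegrableOn (fun p => ∑ j, T j p * ph1 y0 y1 c j p) M3 :=
    (Dec.sum (γ := β) fun j => ((D.decT j).mul (d1 j)).mono (by linarith)).integrableOn hβ
  have iG : IntegrableOn (fun p => ∑ k, U k p *
      ∑ i, (DU i k p * ph1 y0 y1 c i p + U i p * ph2 y0 y1 c i k p)) M3 := by
    refine Dec.integrableOn (γ := β) (Dec.sum fun k => ?_) hβ
    refine Dec.mono (γ := β + 0) ((D.decU k).mul (Dec.sum fun i => ?_)) (by linarith)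
    exact (((D.decDU i k).mul (d1 i)).mono (by linarith)).add
      (((D.decU i).mul (d2 i k)).mono (by linarith))
  have iD : IntegrableOn (fun p => ∑ j, (DP j p * ph1 y0 y1 c j p + P p * ph2 y0 y1 c j j p)) M3 :=
    (Dec.sum (γ := β) fun j => (((D.decDP j).mul (d1 j)).mono (by linarith)).add
      ((D.decP.mul (d2 j j)).mono (by linarith))).integrableOn hβ
  have iS : IntegrableOn (fun p => U 0 p ^ 2 + U 1 p ^ 2 + U 2 p ^ 2) M3 := by
    have := (Dec.sum (γ := β) fun j => ((D.decU j).mul (D.decU j)).mono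
      (by linarith)).integrableOn hβ
    refine this.congr_fun (fun p _ => ?_) measurableSet_M3
    simp only [Fin.sum_univ_three]
    ring
  have e4 : ∫ q : ℝ × ℝ, P (q, 0) * (- ph1 y0 y1 c 2 (q, 0)) =
      ∫ p in M3, ∑ j, (DP j p * ph1 y0 y1 c j p + P p * ph2 y0 y1 c j j p) := by
    rw [e1, ← integral_neg]
    congr 1
    funext q
    ring
  have e5 : ∫ p in M3, ∑ j, (DP j p * ph1 y0 y1 c j p + P p * ph2 y0 y1 c j j p) =
      ∫ p in M3, ((∑ j, (DP j p * ph1 y0 y1 c j p + P p * ph2 y0 y1 c j j p)) +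
        (∑ j, T j p * ph1 y0 y1 c j p) + ∑ k, U k p *
          ∑ i, (DU i k p * ph1 y0 y1 c i p + U i p * ph2 y0 y1 c i k p)) := by
    have f1 := integral_add (iD.add iT) iG
    have f2 := integral_add iD iT
    simp only [Pi.add_apply] at f1
    rw [hT, add_zero] at f2
    rw [e2, add_zero, f2] at f1
    exact f1.symm
  rw [e4, e5, ← integral_const_mul, ← integral_const_mul]
  refine setIntegral_mono_on (iS.const_mul _) (((iD.add iT).add iG).const_mul ε)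
    measurableSet_M3 fun p hp => ?_
  have hp' := M3_subset hp
  have tr := ph2_trace (y0 := y0) (y1 := y1) hc hp'
  have q0 := D.eqn 0 p hp'
  have q1 := D.eqn 1 p hp'
  have q2 := D.eqn 2 p hp'
  have sb := sq_bound (U 0 p) (U 1 p) (U 2 p) K (fun i j => ε * ph2 y0 y1 c i j p)
    (fun i j => by
      rw [abs_mul]
      calc |ε| * |ph2 y0 y1 c i j p| ≤ 1 * |ph2 y0 y1 c i j p| :=
            mul_le_mul_of_nonneg_right hε (abs_nonneg _)
        _ ≤ K := by rw [one_mul]; exact hK p hp' i j)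
  simp only [Fin.sum_univ_three, Matrix.cons_val_zero, Matrix.cons_val_one, Matrix.cons_val_two,
    Matrix.head_cons, Matrix.tail_cons] at tr q0 q1 q2 sb ⊢
  rw [q0, q1, q2]
  have tr' : ε * (P p * (ph2 y0 y1 c 0 0 p + ph2 y0 y1 c 1 1 p + ph2 y0 y1 c 2 2 p)) = 0 := by
    rw [tr, mul_zero, mul_zero]
  linarith

/-- The test functional cannot decrease fast. -/
lemma Dyn.test (D : Dyn β U DU P DP T) (hc : 0 < c)
    (hT : ∫ p in M3, ∑ j, T j p * ph1 y0 y1 c j p = 0) {K G : ℝ}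
    (hK : ∀ p ∈ H3, ∀ i j, |ph2 y0 y1 c i j p| ≤ K)
    (hG : ∀ q : ℝ × ℝ, |ph1 y0 y1 c 2 (q, 0)| ≤ G) {ε : ℝ} (hε : |ε| ≤ 1) :
    -(G * (1/2)) * (∫ q : ℝ × ℝ, (U 0 (q, 0) ^ 2 + U 1 (q, 0) ^ 2))
      - (3 * K) * (∫ p in M3, (U 0 p ^ 2 + U 1 p ^ 2 + U 2 p ^ 2)) ≤
      ε * ∫ q : ℝ × ℝ, (ff y0 y1 c 0 (q, 0) * T 0 (q, 0) + ff y0 y1 c 1 (q, 0) * T 1 (q, 0)) := by
  have hβ := D.hβ
  have h1 := D.pressure_test hc hT hK hε
  rw [D.wall_test hc]
  have d1 := dec_ph1 (y0 := y0) (y1 := y1) hc 2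
  have iP : Integrable (fun q : ℝ × ℝ => P (q, 0) * (- ph1 y0 y1 c 2 (q, 0))) :=
    (((D.decP.mul d1.neg).slice (by linarith) le_rfl).integrable (by linarith))
  have dU := (((D.decU 0).mul (D.decU 0)).add ((D.decU 1).mul (D.decU 1)))
  have iU : Integrable (fun q : ℝ × ℝ => (U 0 (q, 0) ^ 2 + U 1 (q, 0) ^ 2)) := by
    have := ((dU.slice (by linarith) le_rfl).integrable (by linarith))
    simpa [pow_two] using this
  have iV : Integrable (fun q : ℝ × ℝ => ((U 0 (q, 0) * U 0 (q, 0) + U 1 (q, 0) * U 1 (q, 0)) *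
      (1 / 2)) * (- ph1 y0 y1 c 2 (q, 0))) :=
    ((((dU.mul (Dec.const (1/2))).mul d1.neg).slice (by linarith) le_rfl).integrable
      (by linarith))
  have e : ∫ q : ℝ × ℝ, ((U 0 (q, 0) * U 0 (q, 0) + U 1 (q, 0) * U 1 (q, 0)) * (1 / 2) + P (q, 0)) *
        (- ph1 y0 y1 c 2 (q, 0)) =
      (∫ q : ℝ × ℝ, ((U 0 (q, 0) * U 0 (q, 0) + U 1 (q, 0) * U 1 (q, 0)) *
      (1 / 2)) * (- ph1 y0 y1 c 2 (q, 0))) + ∫ q : ℝ × ℝ, P (q, 0) * (- ph1 y0 y1 c 2 (q, 0)) := by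
    rw [← integral_add iV iP]
    congr 1
    funext q
    ring
  have h2 : -(G * (1/2)) * (∫ q : ℝ × ℝ, (U 0 (q, 0) ^ 2 + U 1 (q, 0) ^ 2)) ≤
      ε * ∫ q : ℝ × ℝ, ((U 0 (q, 0) * U 0 (q, 0) + U 1 (q, 0) * U 1 (q, 0)) *
      (1 / 2)) * (- ph1 y0 y1 c 2 (q, 0)) := by
    rw [← integral_const_mul, ← integral_const_mul]
    refine integral_mono (iU.const_mul _) (iV.const_mul ε) fun q => ?_
    have hq : |ε * ph1 y0 y1 c 2 (q, 0)| ≤ G := by
      rw [abs_mul]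
      calc |ε| * |ph1 y0 y1 c 2 (q, 0)| ≤ 1 * |ph1 y0 y1 c 2 (q, 0)| :=
            mul_le_mul_of_nonneg_right hε (abs_nonneg _)
        _ ≤ G := by rw [one_mul]; exact hG q
    have hq' := (abs_le.1 hq).2
    have : 0 ≤ (U 0 (q, 0) ^ 2 + U 1 (q, 0) ^ 2) := by positivity
    change -(G * (1/2)) * (U 0 (q, 0) ^ 2 + U 1 (q, 0) ^ 2) ≤ ε * (((U 0 (q, 0) * U 0 (q, 0) +
      U 1 (q, 0) * U 1 (q, 0)) * (1 / 2)) * (- ph1 y0 y1 c 2 (q, 0)))
    nlinarith
  rw [e]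
  linarith

end

end Pool.Agent.Helper48.HalfEuler
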