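import Pool.Agent.Helper48.HE.Lift

open Set MeasureTheory Filter Topology

namespace Pool.Agent.Helper48.HalfEuler

/-- A solution in coordinates. -/
structure Sol (β t : ℝ) (U : ℝ → Fin 3 → P3 → ℝ) (DU : ℝ → Fin 3 → Fin 3 → P3 → ℝ)
    (T : ℝ → Fin 3 → P3 → ℝ) : Prop where
  ht : 0 < t
  snap : ∀ s ∈ Icc 0 t, Snap β (U s) (DU s)
  dyn : ∀ s ∈ Ioo 0 t, ∃ P DP, Dyn β (U s) (DU s) P DP (T s)
  bound : ∃ C, 0 ≤ C ∧ ∀ s ∈ Icc 0 t, ∀ i, ∀ p ∈ H3, |U s i p| ≤ C * (1 + ‖p‖) ^ (-β)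
  boundT : ∃ C, 0 ≤ C ∧ ∀ s ∈ Ioo 0 t, ∀ i, ∀ p ∈ H3, |T s i p| ≤ C * (1 + ‖p‖) ^ (-β)
  cont : ∀ i, ∀ p ∈ H3, ContinuousOn (fun s => U s i p) (Icc 0 t)
  der : ∀ s ∈ Ioo 0 t, ∀ i, ∀ p ∈ H3, HasDerivAt (fun τ => U τ i p) (T s i p) s

lemma deriv_int {X : Type*} [MeasurableSpace X] {μ : Measure X} {t : ℝ} {F F' : ℝ → X → ℝ}
    {bd : X → ℝ} (hF : ∀ s ∈ Ioo 0 t, Integrable (F s) μ)
    (hF' : ∀ s ∈ Ioo 0 t, AEStronglyMeasurable (F' s) μ)
    (hb : ∀ᵐ x ∂μ, ∀ s ∈ Ioo 0 t, |F' s x| ≤ bd x) (hbd : Integrable bd μ)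
    (hd : ∀ᵐ x ∂μ, ∀ s ∈ Ioo 0 t, HasDerivAt (fun τ => F τ x) (F' s x) s) :
    ∀ s ∈ Ioo 0 t, HasDerivAt (fun τ => ∫ x, F τ x ∂μ) (∫ x, F' s x ∂μ) s := by
  intro s hs
  have hn : Ioo 0 t ∈ 𝓝 s := isOpen_Ioo.mem_nhds hs
  exact (hasDerivAt_integral_of_dominated_loc_of_deriv_le hn
    (Filter.mem_of_superset hn fun x hx => (hF x hx).aestronglyMeasurable) (hF s hs) (hF' s hs)
    hb hbd hd).2

lemma cont_int {X : Type*} [MeasurableSpace X] {μ : Measure X} {t : ℝ} {F : ℝ → X → ℝ}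
    {bd : X → ℝ} (hF : ∀ s ∈ Icc 0 t, AEStronglyMeasurable (F s) μ)
    (hb : ∀ᵐ x ∂μ, ∀ s ∈ Icc 0 t, |F s x| ≤ bd x) (hbd : Integrable bd μ)
    (hd : ∀ᵐ x ∂μ, ContinuousOn (fun τ => F τ x) (Icc 0 t)) :
    ContinuousOn (fun τ => ∫ x, F τ x ∂μ) (Icc 0 t) := by
  refine continuousOn_of_dominated hF (fun s hs => ?_) hbd hd
  filter_upwards [hb] with x hx
  exact hx s hs

section
variable {β t : ℝ} {U : ℝ → Fin 3 → P3 → ℝ} {DU : ℝ → Fin 3 → Fin 3 → P3 → ℝ}
  {T : ℝ → Fin 3 → P3 → ℝ}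

lemma Sol.decT (S : Sol β t U DU T) {s : ℝ} (hs : s ∈ Ioo 0 t) (i : Fin 3) : Dec β (T s i) := by
  obtain ⟨P, DP, D⟩ := S.dyn s hs
  exact D.decT i

lemma Sol.hβ (S : Sol β t U DU T) : 3 < β := (S.snap 0 ⟨le_rfl, S.ht.le⟩).hβ

/-- Derivative of a linear functional on the half-space. -/
lemma Sol.deriv_lin (S : Sol β t U DU T) {A : Fin 3 → P3 → ℝ} (hA : ∀ i, Dec 0 (A i)) :
    ∀ s ∈ Ioo 0 t, HasDerivAt (fun τ => ∫ p in M3, ∑ i, U τ i p * A i p)
      (∫ p in M3, ∑ i, T s i p * A i p) s := by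
  have hβ := S.hβ
  obtain ⟨C, hC, hb⟩ := S.boundT
  refine deriv_int (bd := fun p => ∑ i, C * (1 + ‖p‖) ^ (-β) * |A i p|) ?_ ?_ ?_ ?_ ?_
  · intro s hs
    exact (Dec.sum (γ := β) fun i => (((S.snap s (Ioo_subset_Icc_self hs)).decU i).mul
      (hA i)).mono (by linarith)).integrableOn hβ
  · intro s hs
    exact ((Dec.sum (γ := β) fun i => ((S.decT hs i).mul
      (hA i)).mono (by linarith)).integrableOn hβ).aestronglyMeasurable
  · refine (ae_restrict_iff' measurableSet_M3).2 (Eventually.of_forall fun p hp s hs => ?_)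
    refine (Finset.abs_sum_le_sum_abs _ _).trans (Finset.sum_le_sum fun i _ => ?_)
    rw [abs_mul]
    exact mul_le_mul_of_nonneg_right (hb s hs i p (M3_subset hp)) (abs_nonneg _)
  · have hw : Dec β (fun p => (1 + ‖p‖) ^ (-β)) := by
      refine Dec.mk' (C := 1) ?_ fun p _ => ?_
      · refine Continuous.continuousOn ?_
        refine Continuous.rpow_const (by fun_prop) fun p => Or.inl (w_pos p).ne'
      · rw [one_mul, abs_of_nonneg (w_nonneg _ _)]
    have habs : ∀ i, Dec 0 (fun p => |A i p|) := fun i => by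
      obtain ⟨h, C', hC', hb'⟩ := hA i
      exact ⟨h.abs, C', hC', fun p hp => by rw [abs_abs]; exact hb' p hp⟩
    exact (Dec.sum (γ := β) fun i => ((hw.const_mul C).mul (habs i)).mono
      (by linarith)).integrableOn hβ
  · refine (ae_restrict_iff' measurableSet_M3).2 (Eventually.of_forall fun p hp s hs => ?_)
    have h : ∀ i ∈ (Finset.univ : Finset (Fin 3)), HasDerivAt (fun τ => U τ i p * A i p)
        (T s i p * A i p) s := fun i _ => (S.der s hs i p (M3_subset hp)).mul_const _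
    simpa using HasDerivAt.fun_sum h

/-- A linear functional vanishing on the solution annihilates the time derivative. -/
lemma Sol.lin_zero (S : Sol β t U DU T) {A : Fin 3 → P3 → ℝ} (hA : ∀ i, Dec 0 (A i))
    (h0 : ∀ s ∈ Icc 0 t, ∫ p in M3, ∑ i, U s i p * A i p = 0) :
    ∀ s ∈ Ioo 0 t, ∫ p in M3, ∑ i, T s i p * A i p = 0 := by
  intro s hs
  have h1 := S.deriv_lin hA s hs
  have h2 : HasDerivAt (fun τ => ∫ p in M3, ∑ i, U τ i p * A i p) 0 s := by
    refine (hasDerivAt_const s (0:ℝ)).congr_of_eventuallyEq ?_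
    filter_upwards [isOpen_Ioo.mem_nhds hs] with τ hτ
    exact h0 τ (Ioo_subset_Icc_self hτ)
  exact h1.unique h2

lemma Sol.T2 (S : Sol β t U DU T) : ∀ s ∈ Ioo 0 t, ∫ p in M3, T s 2 p = 0 := by
  intro s hs
  have h := S.lin_zero (A := fun i _ => if i = 2 then 1 else 0) (fun i => Dec.const _) ?_ s hs
  · simpa [Fin.sum_univ_three] using h
  · intro s hs
    have := (S.snap s hs).int_U2
    simpa [Fin.sum_univ_three] using this

lemma Sol.Tph (S : Sol β t U DU T) {y0 y1 c : ℝ} (hc : 0 < c) :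
    ∀ s ∈ Ioo 0 t, ∫ p in M3, ∑ i, T s i p * ph1 y0 y1 c i p = 0 := by
  refine S.lin_zero (fun i => (dec_ph1 hc i).mono (by norm_num)) fun s hs => ?_
  exact (S.snap s hs).int_grad ((dec_ph hc).mono (by norm_num))
    (fun j => (dec_ph1 hc j).mono (by norm_num)) (fun j => hasD_ph hc j)

/-- weights -/
lemma dec_w (γ : ℝ) : Dec γ (fun p => (1 + ‖p‖) ^ (-γ)) := by
  refine Dec.mk' (C := 1) ?_ fun p _ => ?_
  · refine Continuous.continuousOn ?_
    refine Continuous.rpow_const (by fun_prop) fun p => Or.inl (w_pos p).ne'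
  · rw [one_mul, abs_of_nonneg (w_nonneg _ _)]

/-- The energy is constant. -/
lemma Sol.energy (S : Sol β t U DU T) {s : ℝ} (hs : s ∈ Icc 0 t) :
    ∫ p in M3, (U s 0 p ^ 2 + U s 1 p ^ 2 + U s 2 p ^ 2) =
      ∫ p in M3, (U 0 0 p ^ 2 + U 0 1 p ^ 2 + U 0 2 p ^ 2) := by
  have hβ := S.hβ
  obtain ⟨C, hC, hb⟩ := S.bound
  obtain ⟨C', hC', hb'⟩ := S.boundT
  have dU : ∀ s ∈ Icc 0 t, Dec β (fun p => U s 0 p ^ 2 + U s 1 p ^ 2 + U s 2 p ^ 2) := by
    intro s hs
    have hS := S.snap s hs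
    refine ((Dec.sum (γ := β) fun i => ((hS.decU i).mul (hS.decU i)).mono
      (by linarith))).congr fun p _ => ?_
    rw [Fin.sum_univ_three]; ring
  have hsmall : ∀ p : P3, (1 + ‖p‖) ^ (-β) ≤ 1 := fun p => w_le_one (by linarith) p
  have hcont : ContinuousOn (fun s => ∫ p in M3, (U s 0 p ^ 2 + U s 1 p ^ 2 + U s 2 p ^ 2))
      (Icc 0 t) := by
    refine cont_int (bd := fun p => 3 * C ^ 2 * (1 + ‖p‖) ^ (-β)) ?_ ?_ ?_ ?_
    · intro s hs
      exact ((dU s hs).integrableOn hβ).aestronglyMeasurable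
    · refine (ae_restrict_iff' measurableSet_M3).2 (Eventually.of_forall fun p hp s hs => ?_)
      have hw := w_nonneg (-β) p
      have h : ∀ i, U s i p ^ 2 ≤ C ^ 2 * (1 + ‖p‖) ^ (-β) := by
        intro i
        have h1 := hb s hs i p (M3_subset hp)
        calc U s i p ^ 2 = |U s i p| ^ 2 := (sq_abs _).symm
          _ ≤ (C * (1 + ‖p‖) ^ (-β)) ^ 2 := by gcongr
          _ = C ^ 2 * ((1 + ‖p‖) ^ (-β) * (1 + ‖p‖) ^ (-β)) := by ring
          _ ≤ C ^ 2 * ((1 + ‖p‖) ^ (-β) * 1) := by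
              gcongr
              exact hsmall p
          _ = _ := by ring
      rw [abs_of_nonneg (by positivity)]
      linarith [h 0, h 1, h 2]
    · exact ((dec_w β).const_mul _).integrableOn hβ
    · refine (ae_restrict_iff' measurableSet_M3).2 (Eventually.of_forall fun p hp => ?_)
      have h := fun i => S.cont i p (M3_subset hp)
      exact (((h 0).pow 2).add ((h 1).pow 2)).add ((h 2).pow 2)
  have hder : ∀ s ∈ Ioo 0 t, HasDerivAt
      (fun s => ∫ p in M3, (U s 0 p ^ 2 + U s 1 p ^ 2 + U s 2 p ^ 2)) 0 s := by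
    have h := deriv_int (μ := volume.restrict M3) (t := t)
      (F := fun s p => U s 0 p ^ 2 + U s 1 p ^ 2 + U s 2 p ^ 2)
      (F' := fun s p => 2 * ∑ i, U s i p * T s i p)
      (bd := fun p => 6 * (C * C') * (1 + ‖p‖) ^ (-β)) ?_ ?_ ?_ ?_ ?_
    · intro s hs
      have h1 := h s hs
      obtain ⟨P, DP, D⟩ := S.dyn s hs
      rw [integral_const_mul, D.energy, mul_zero] at h1
      exact h1
    · intro s hs
      exact (dU s (Ioo_subset_Icc_self hs)).integrableOn hβ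
    · intro s hs
      exact (((Dec.sum (γ := β) fun i => (((S.snap s (Ioo_subset_Icc_self hs)).decU i).mul
        (S.decT hs i)).mono (by linarith)).const_mul 2).integrableOn hβ).aestronglyMeasurable
    · refine (ae_restrict_iff' measurableSet_M3).2 (Eventually.of_forall fun p hp s hs => ?_)
      have hw := w_nonneg (-β) p
      have h : ∀ i, |U s i p * T s i p| ≤ (C * C') * (1 + ‖p‖) ^ (-β) := by
        intro i
        rw [abs_mul]
        calc |U s i p| * |T s i p| ≤ (C * (1 + ‖p‖) ^ (-β)) * (C' * (1 + ‖p‖) ^ (-β)) :=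
              mul_le_mul (hb s (Ioo_subset_Icc_self hs) i p (M3_subset hp))
                (hb' s hs i p (M3_subset hp)) (abs_nonneg _) (by positivity)
          _ = (C * C') * (1 + ‖p‖) ^ (-β) * (1 + ‖p‖) ^ (-β) := by ring
          _ ≤ (C * C') * (1 + ‖p‖) ^ (-β) * 1 := by
              gcongr
              exact hsmall p
          _ = _ := by ring
      have h3 := Finset.abs_sum_le_sum_abs (fun i => U s i p * T s i p) Finset.univ
      rw [Fin.sum_univ_three (f := fun i => |U s i p * T s i p|)] at h3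
      rw [abs_mul, abs_two]
      linarith [h 0, h 1, h 2]
    · exact ((dec_w β).const_mul _).integrableOn hβ
    · refine (ae_restrict_iff' measurableSet_M3).2 (Eventually.of_forall fun p hp s hs => ?_)
      have h := fun i => S.der s hs i p (M3_subset hp)
      refine ((((h 0).pow 2).add ((h 1).pow 2)).add ((h 2).pow 2)).congr_deriv ?_
      rw [Fin.sum_univ_three]
      simp
      ring
  have hconst := constant_of_has_deriv_right_zero hcont (fun s hs => ?_) s hs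
  · exact hconst
  · rcases eq_or_lt_of_le hs.1 with h | h
    · -- at the left end point
      subst h
      exact hasDerivWithinAt_Ici_of_tendsto_deriv (s := Ioo 0 t)
        (fun x hx => (hder x hx).differentiableAt.differentiableWithinAt)
        ((hcont 0 ⟨le_rfl, S.ht.le⟩).mono Ioo_subset_Icc_self)
        (Ioo_mem_nhdsGT S.ht)
        (by
          refine tendsto_const_nhds.congr' ?_
          filter_upwards [Ioo_mem_nhdsGT S.ht] with x hx
          exact (hder x hx).deriv.symm)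
    · exact (hder s ⟨h, hs.2⟩).hasDerivWithinAt

/-! ### Wall functionals -/

/-- A linear wall functional. -/
lemma Sol.wall_lin (S : Sol β t U DU T) {A : Fin 3 → P3 → ℝ} (hA : ∀ i, Dec (-1) (A i)) :
    ContinuousOn (fun τ => ∫ q : ℝ × ℝ, (A 0 (q, 0) * U τ 0 (q, 0) + A 1 (q, 0) * U τ 1 (q, 0)))
      (Icc 0 t) ∧
    ∀ s ∈ Ioo 0 t, HasDerivAt
      (fun τ => ∫ q : ℝ × ℝ, (A 0 (q, 0) * U τ 0 (q, 0) + A 1 (q, 0) * U τ 1 (q, 0)))
      (∫ q : ℝ × ℝ, (A 0 (q, 0) * T s 0 (q, 0) + A 1 (q, 0) * T s 1 (q, 0))) s := by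
  have hβ := S.hβ
  have habs : ∀ i, Dec (-1) (fun p => |A i p|) := fun i => by
    obtain ⟨h, C', hC', hb'⟩ := hA i
    exact ⟨h.abs, C', hC', fun p hp => by rw [abs_abs]; exact hb' p hp⟩
  have hint : ∀ V : Fin 3 → P3 → ℝ, (∀ i, Dec β (V i)) →
      Integrable (fun q : ℝ × ℝ => (A 0 (q, 0) * V 0 (q, 0) + A 1 (q, 0) * V 1 (q, 0))) := by
    intro V hV
    exact (Dec.slice (γ := β - 1) ((((hA 0).mul (hV 0)).mono (by linarith)).add
      (((hA 1).mul (hV 1)).mono (by linarith))) (by linarith) le_rfl).integrable (by linarith)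
  have hintB : ∀ C : ℝ, Integrable (fun q : ℝ × ℝ =>
      (|A 0 (q, 0)| * (C * (1 + ‖((q, 0) : P3)‖) ^ (-β)) +
        |A 1 (q, 0)| * (C * (1 + ‖((q, 0) : P3)‖) ^ (-β)))) := by
    intro C
    exact (Dec.slice (γ := β - 1) ((((habs 0).mul ((dec_w β).const_mul C)).mono (by linarith)).add
      (((habs 1).mul ((dec_w β).const_mul C)).mono (by linarith))) (by linarith)
        le_rfl).integrable (by linarith)
  have hbd : ∀ (C : ℝ) (V : Fin 3 → P3 → ℝ) (q : ℝ × ℝ),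
      (∀ i, |V i (q, 0)| ≤ C * (1 + ‖((q, 0) : P3)‖) ^ (-β)) →
      |A 0 (q, 0) * V 0 (q, 0) + A 1 (q, 0) * V 1 (q, 0)| ≤
      (|A 0 (q, 0)| * (C * (1 + ‖((q, 0) : P3)‖) ^ (-β)) +
        |A 1 (q, 0)| * (C * (1 + ‖((q, 0) : P3)‖) ^ (-β))) := by
    intro C V q h
    refine (abs_add_le _ _).trans ?_
    rw [abs_mul, abs_mul]
    exact add_le_add (mul_le_mul_of_nonneg_left (h 0) (abs_nonneg _))
      (mul_le_mul_of_nonneg_left (h 1) (abs_nonneg _))
  constructor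
  · obtain ⟨C, hC, hb⟩ := S.bound
    refine cont_int (bd := fun q : ℝ × ℝ =>
      (|A 0 (q, 0)| * (C * (1 + ‖((q, 0) : P3)‖) ^ (-β)) +
        |A 1 (q, 0)| * (C * (1 + ‖((q, 0) : P3)‖) ^ (-β)))) ?_ ?_ (hintB C) ?_
    · intro s hs
      exact (hint _ (S.snap s hs).decU).aestronglyMeasurable
    · refine Eventually.of_forall fun q s hs => ?_
      exact hbd C (U s) q fun i => hb s hs i _ (zero_mem_H3 q)
    · refine Eventually.of_forall fun q => ?_
      have h := fun i => S.cont i _ (zero_mem_H3 q)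
      exact (continuousOn_const.mul (h 0)).add (continuousOn_const.mul (h 1))
  · obtain ⟨C, hC, hb⟩ := S.boundT
    refine deriv_int (bd := fun q : ℝ × ℝ =>
      (|A 0 (q, 0)| * (C * (1 + ‖((q, 0) : P3)‖) ^ (-β)) +
        |A 1 (q, 0)| * (C * (1 + ‖((q, 0) : P3)‖) ^ (-β)))) ?_ ?_ ?_ (hintB C) ?_
    · intro s hs
      exact hint _ (S.snap s (Ioo_subset_Icc_self hs)).decU
    · intro s hs
      exact (hint _ (fun i => S.decT hs i)).aestronglyMeasurable
    · refine Eventually.of_forall fun q s hs => ?_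
      exact hbd C (T s) q fun i => hb s hs i _ (zero_mem_H3 q)
    · refine Eventually.of_forall fun q s hs => ?_
      have h := fun i => S.der s hs i _ (zero_mem_H3 q)
      exact ((h 0).const_mul _).add ((h 1).const_mul _)

end

end Pool.Agent.Helper48.HalfEuler
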